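import Pool.Agent.E8helper20.CTL3.StmD

/-!
# Project CTM (helper20): the exact law of the Selmer groups for all the cubic twists
`y² + u D y = x³` over `ℚ(ω)`, `u = ω ^ b (√-3) ^ k`: the counting parts

Compare the project CTL3 (`u = 3`; the digit `yd` is replaced by all the nonzero linear forms of the
two digits modulo `9`).
-/

set_option autoImplicit false
set_option linter.unusedVariables false

open scoped Classical

namespace Pool.Agent.E8helper20.CTM

open Finset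
open Pool.Agent.Y692.QS (Ei w nr toC)
open Pool.Agent.Y715.T.Rec (cs)
open Pool.Agent.Y715.T.RecG (Pq)
open Pool.Agent.Y699.E (ez nrm SB PS mf lg xab)
open Pool.Agent.Y703.CX (XX kk zz)
open Pool.Agent.Y703.XK (sm la bl HB S_EQ S_BIL S_LOW prs)
open Pool.Agent.Y703.XL (cr)
open Pool.Agent.R419.KF (wt SG)
open Pool.Agent.E8helper20.CTK3 (yd S3 ClsC3 el3)

/-- the first digit: `α = 1 + 3 x + 3 y ω` modulo `9` gives `x` -/
def xd (α : Ei) : ZMod 3 := (((α.re - 1) / 3 : ℤ) : ZMod 3)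

/-- the exponent of `(ω / α)_3`: `(N α - 1) / 3 = 2 x - y = - (x + y)` -/
def c2 (α : Ei) : ZMod 3 := -(xd α + yd α)

/-- the exponent of `(3 / α)_3` -/
def c3 (α : Ei) : ZMod 3 := yd α

/-- a linear form of the digits -/
def lf (a b : ZMod 3) (α : Ei) : ZMod 3 := a * c2 α + b * c3 α

/-- M1 SUPM: the supplementary laws (the third one is `Pool.Agent.E8helper2.CT3.t_SUP`; the second one
follows from it, `3 = - (1 + 2 ω) ^ 2`; the first one is the definition of the symbol), and the digits are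
additive on primary elements. -/
def S_SUPM : Prop :=
  (∀ π : Ei, Pq π → cs π w = c2 π ∧ cs π (1 + 2 * w) = -c3 π ∧ cs π 3 = c3 π) ∧
  ∀ α β : Ei, (3 : Ei) ∣ α - 1 → (3 : Ei) ∣ β - 1 →
    c2 (α * β) = c2 α + c2 β ∧ c3 (α * β) = c3 α + c3 β

/-- the labels of the large primes with respect to the small ones and modulo `9` are not
degenerate -/
def Nd9 (S₀ S₁ : Finset Ei) : Prop :=
  ∀ (a b : ZMod 3) (v : Ei → ZMod 3), (a ≠ 0 ∨ b ≠ 0 ∨ ∃ u ∈ S₀, v u ≠ 0) →
    ∃ π ∈ S₁, lf a b π + ∑ u ∈ S₀, v u * cs u π ≠ 0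

/-- M2 HAL9: mean values of the characters with a nontrivial twist modulo `9` (the generalisation of
`Pool.Agent.E8helper51.CTK3.t_HAL3`, `E8helper51/CTK3/Hal3.lean`, from `t * yd` to all the nonzero
linear forms). -/
def S_HAL9 : Prop := ∃ C : ℝ, 0 ≤ C ∧ ∀ (a b : ZMod 3) (A B : Ei), (a ≠ 0 ∨ b ≠ 0) → PS A → PS B →
  ∀ T : ℕ, ∑ n ∈ SB T, mf (fun π => (1 + 2 * (ez (lf a b π) * xab A B π).re) / 3) n ≤
    C * (lg (nrm A * nrm B)) ^ (1 / 3 : ℝ) * (T * (lg T) ^ (-(1 / 3) : ℝ))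

/-- the conclusion of M3 -/
def BadM : Prop := ∀ ε : ℝ, 0 < ε → ∃ X₀ : ℕ, ∀ X : ℕ, X₀ ≤ X →
  (((SG X).filter fun S => S.card ≤ kk X ∧ ¬ Nd9 (sm (zz X) S) (la (zz X) S)).card : ℝ) ≤ ε * X

/-- M3 BAD9: few sets have degenerate labels (copy of `E8helper69/CTK3/Bad3.lean`, `9` in place of `3`
choices of the twist). -/
def S_BAD9 : Prop := S_HAL9 → BadM

/-- the regular sets -/
noncomputable def RRM (M : Finset Ei) (X z H k V : ℕ) : Finset (Finset Ei) :=
  Pool.Agent.E8helper20.CTK3.RR3 M X z H k V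

/-- the count in a box for a property `P` with the constants `c`, `K` -/
def BoxM (P : Finset Ei → Finset Ei → Prop) (c K : ℝ) : Prop :=
  ∀ (ι : Type) [Fintype ι] [LinearOrder ι]
  (C : ι → Finset Ei) (X : ι → ℕ) (κ : ℝ) (M S₀ : Finset Ei), M ⊆ S₀ → 0 ≤ κ →
  (∀ i, (C i).card ≤ X i) → HB C X κ → (∀ u ∈ S₀, Pq u) → (∀ i, ∀ π ∈ C i, Pq π ∧ π ∉ S₀) →
  (∀ i l, i ≠ l → Disjoint (C i) (C l)) → S₀.card + 2 < Fintype.card ι →
  |(((Fintype.piFinset C).filter fun p => Nd9 S₀ (univ.image p) ∧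
      P M (S₀ ∪ univ.image p)).card : ℝ) -
    c * (((Fintype.piFinset C).filter fun p => Nd9 S₀ (univ.image p)).card : ℝ)| ≤
  K * (3 ^ (S₀.card + 1) / 3 ^ Fintype.card ι) *
    (((Fintype.piFinset C).filter fun p => Nd9 S₀ (univ.image p)).card : ℝ) +
  3 ^ ((S₀.card + 2) * Fintype.card ι + (prs ι).card) * (κ * ∏ j, (X j : ℝ))

/-- the number of the solutions of the Laplacian system with one additional vertex (with the edges
`lf a b`) where `v` is zero -/
noncomputable def n1 (a b : ZMod 3) (M S : Finset Ei) : ℕ :=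
  Nat.card {v : S → ZMod 3 //
    ∀ π : S, ∑ ρ : S, wt M ρ * cs π ρ * (v ρ - v π) = lf a b π * v π}

/-- M4 BOX1: one additional vertex (the generalisation of `Pool.Agent.E8helper56.CTL3.t_BOXL`,
`E8helper56/CTL3/BoxL.lean`, where `lf a b = yd = c3`; the labels of the large primes are now the two
digits and the symbols `cs u π`, so that `Nd9` is a condition on the labels). -/
def S_BOX1 : Prop := S_EQ → Pool.Agent.Y703.XL.S_LA → ∀ (a b : ZMod 3), (a ≠ 0 ∨ b ≠ 0) → ∀ r : ℕ,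
  BoxM (fun M S => n1 a b M S = 3 ^ r) (cr r) (3 ^ (r + 1))

/-- the number of the solutions `(v, s)` of the system for `u = ω ^ b √-3`: there is an additional
unknown `s` (the exponent of `ω`) and an additional equation -/
noncomputable def n2 (b : ZMod 3) (M S : Finset Ei) : ℕ :=
  Nat.card {p : (S → ZMod 3) × ZMod 3 //
    (∀ π : S, ∑ ρ : S, wt M ρ * cs π ρ * (p.1 ρ - p.1 π) + p.2 * c2 π =
      (b * c2 π - c3 π) * p.1 π) ∧
    ∑ ρ : S, wt M ρ * c2 ρ * p.1 ρ = b * p.2}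

/-- M5 BOX2: two additional vertices. Take `U = Option (Option S₀)` in `S_LA`, `P = none`,
`Q = some none`, the value at `P` is `0` and at `Q` it is `s`; the edges are `A (π, Q) = c2 π`,
`A (π, P) = (b - 1) * c2 π - c3 π` and `A (P, Q) = b - ∑ ρ ∈ S, wt M ρ * c2 ρ` (a constant when the
labels are fixed); the equation at `P` follows from the other ones; the whole system has
`3 * n2 b M S` solutions. -/
def S_BOX2 : Prop := S_EQ → Pool.Agent.Y703.XL.S_LA → ∀ (b : ZMod 3) (r : ℕ),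
  BoxM (fun M S => n2 b M S = 3 ^ r) (cr r) (3 ^ (r + 2))

/-- the sum over the boxes -/
def KeyM (P : Finset Ei → Finset Ei → Prop) (c K : ℝ) : Prop := ∃ C : ℝ, 1 ≤ C ∧
  ∀ (M : Finset Ei) (X z H k V N : ℕ) (κ : ℝ), (∀ q ∈ M, nrm q ≤ z) → 2 ≤ V → 1 ≤ X → 1 ≤ H →
  1 ≤ z → 0 ≤ κ → C ≤ κ ^ 24 * z → (H : ℝ) * Real.log X < N →
  |(((RRM M X z H k V).filter fun S => Nd9 (sm z S) (la z S) ∧ P M S).card : ℝ) -
      c * (((RRM M X z H k V).filter fun S => Nd9 (sm z S) (la z S)).card : ℝ)| ≤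
    K * (1 / 3 : ℝ) ^ V * ((RRM M X z H k V).card : ℝ) +
    (9 * N + 9 : ℝ) ^ k * (3 ^ (9 * k ^ 2 + 9) * κ) * (X * (1 + Real.log X))

/-- M6 KEYM: (copy of `Pool.Agent.E8helper89.CTL3.t_KEYL`, `E8helper89/CTL3/Key.lean`, with `Nd9` in
place of `Nd3`, `S₀.card + 2` in place of `S₀.card + 1` in the condition and in the exponent). -/
def S_KEYM : Prop := S_BIL → ∀ (P : Finset Ei → Finset Ei → Prop) (c K : ℝ), 0 ≤ K →
  BoxM P c K → KeyM P c K

/-- M7 DENM: (copies of `E8helper98/CTL3/Asy.lean`, `Den.lean`; take `V + 2` in place of `V + 1`). -/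
def S_DENM : Prop := S_LOW → BadM → ∀ (P : Finset Ei → Finset Ei → Prop) (c K : ℝ), 0 ≤ K →
  0 ≤ c → c ≤ 1 → KeyM P c K → ∀ T : Ei → Prop,
  (∀ M S : Finset Ei, (∀ π ∈ S, Pq π) → M ⊆ S → S.Nonempty → (T (el3 M S) ↔ P M S)) →
    Filter.Tendsto (fun X : ℕ => ({D : Ei | nr D ≤ X ∧ ClsC3 D ∧ T D}.ncard : ℝ) /
      ({D : Ei | nr D ≤ X ∧ ClsC3 D}.ncard : ℝ)) Filter.atTop (nhds c)

end Pool.Agent.E8helper20.CTM
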