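import Pool.Agent.E8helper20.CTL3.StmA
import Pool.Agent.E8helper20.CTM.StmD

/-!
# Project CTM (helper20): the Selmer groups of all the cubic twists over `ℚ(ω)`, the arithmetic parts

`E_a : y² + a y = x³`, `a = c D`, `D = pD π e`, where `c` divides a power of `3`:
type 1: `c = 3 ^ k ω ^ b`, `k = 0, 1`, not `1`; type 2: `c = √-3 ω ^ b`. `lam = √-3 = 1 + 2 ω`.
All the local statements at the prime above `3` were checked by computer (the image of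
`E_a(K_λ)` in `K_λ^* / cubes` is generated by `a` and one more class).
-/

set_option autoImplicit false
set_option linter.unusedVariables false

open scoped Classical

namespace Pool.Agent.E8helper20.CTM

open NumberField Finset
open Pool.Agent.Y692.QS (Ei w nr toC)
open Pool.Agent.Y715.T.Rec (cs)
open Pool.Agent.Y715.T.RecG (Pq)
open Pool.Agent.Y715.T.Gi Pool.Agent.Y715.T.Nr Pool.Agent.Y715.T.Df Pool.Agent.Y715.T.Ell
open Pool.Agent.Y703.CT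
open Pool.Agent.Y696.CTK (ED)
open Pool.Agent.XL6 (SelK SelH)
open Pool.Agent.E8helper20.CTK3 (el3)

/-- M8 RAMM: the primes not above `3`, for `a = c D` and the Kummer generators `c' ∏ π ^ (e v)`,
where `c` and `c'` divide a power of `3` (the generalisation of `t_RAM3`, `t_UNR3`, `t_RAMC3` in
`E8helper23/CT3/RAM.lean` from `3` to `c`). -/
def S_RAMM : Prop := ∀ (c c' : Ei) (n : ℕ), c ∣ 3 ^ n → c' ∣ 3 ^ n →
  ∀ (J : Type) [Fintype J] (π : J → Ei) (e : J → ZMod 3), Dt π e →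
  ∀ (i₀ : QB) (hi : i₀ ^ 2 + i₀ + 1 = 0) (u : QB) (a : GK i₀ → ZMod 3), Tw hi (c * pD π e) u a →
  (∀ (h : GK i₀ → ZMod 3) (j : J) (p : ℕ) [Fact p.Prime] (ι : QB →ₐ[ℚ] PadicAlgCl p),
    ‖ι (ev i₀ hi (π j))‖ < 1 → ∀ R, St1 hi ι a h R →
    ∃ ε : ZMod 3, ∀ (τ : Au p) (σ : GK i₀), Cmp ι τ σ → h σ = ε * a σ) ∧
  (∀ (h : GK i₀ → ZMod 3) (p : ℕ) [Fact p.Prime] (ι : QB →ₐ[ℚ] PadicAlgCl p), p ≠ 3 →
    (∀ j, ¬ ‖ι (ev i₀ hi (π j))‖ < 1) → ∀ R, St1 hi ι a h R →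
    ∀ (τ : Au p) (σ : GK i₀), Cmp ι τ σ → Inert τ → a σ = 0 ∧ h σ = 0) ∧
  ∀ (v : J → ZMod 3) (h : GK i₀ → ZMod 3), Kc hi (c' * ∏ j, π j ^ (e j * v j).val) h →
    ∀ j : J, cs (π j) c' + ∑ i, e i * cs (π j) (π i) * (v i - v j) = cs (π j) c * v j →
    ∀ (p : ℕ) [Fact p.Prime] (ι : QB →ₐ[ℚ] PadicAlgCl p), ‖ι (ev i₀ hi (π j))‖ < 1 →
      ∃ R, St1 hi ι a h R

/-- M9 LOCM1: the local condition at `3`, type 1 (compare `E8helper87/CT3/Loc33.lean`, which is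
`k = 1`, `b = 0`). For `k = 0` (`a` is a unit and not `±1` modulo `3`): a solution of `y (y + a) = x³`
has `3 ∣ v(y)`; for `k = 1` the unit part of `y` is `± ω ^ (2 b g)` modulo `3`. -/
def S_LOCM1 : Prop := ∀ (k b : ℕ), k ≤ 1 → b ≤ 2 → (k ≠ 0 ∨ b ≠ 0) →
  ∀ (i₀ : QB) (hi : i₀ ^ 2 + i₀ + 1 = 0) (D : Ei), (3 : Ei) ∣ D - 1 →
  ∀ (u : QB) (a : GK i₀ → ZMod 3), Tw hi (3 ^ k * w ^ b * D) u a →
  ∀ (h : GK i₀ → ZMod 3) (v q : Ei) (g : ℕ), IsUnit v → Kc hi (v * lam ^ g * (1 + 3 * q)) h →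
  ∀ (_ : Fact (Nat.Prime 3)) (ι : QB →ₐ[ℚ] PadicAlgCl 3) (R : Pt (PadicAlgCl 3)),
    St1 hi ι a h R → (k = 0 → 3 ∣ g) ∧ (k = 1 → v = w ^ (2 * b * g) ∨ v = -w ^ (2 * b * g))

/-- M10 CUBM1: local solutions at `3`, type 1 (compare `E8helper87/CT3/Cub33.lean`, which is `k = 1`,
`b = 0`). -/
def S_CUBM1 : Prop := ∀ (k b : ℕ), k ≤ 1 → b ≤ 2 → (k ≠ 0 ∨ b ≠ 0) →
  ∀ (_ : Fact (Nat.Prime 3)) (I : PadicAlgCl 3) (hI : I ^ 2 + I + 1 = 0) (B D : Ei),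
  (3 : Ei) ∣ B - 1 → lf b k B = 0 → (3 : Ei) ∣ D - 1 → ∃ s t r, Sol hI B (3 ^ k * w ^ b * D) s t r

/-- M11 LOCM2: the local condition at `3`, type 2: the image is generated by `a = √-3 ω ^ b D` and a
class `ω * B` with `c2 B = b`. -/
def S_LOCM2 : Prop := ∀ b : ℕ, b ≤ 2 →
  ∀ (i₀ : QB) (hi : i₀ ^ 2 + i₀ + 1 = 0) (D : Ei), (3 : Ei) ∣ D - 1 →
  ∀ (u : QB) (a : GK i₀ → ZMod 3), Tw hi (lam * w ^ b * D) u a →
  ∀ (h : GK i₀ → ZMod 3) (v q : Ei) (g t : ℕ), (v = w ^ t ∨ v = -w ^ t) →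
    Kc hi (v * lam ^ g * (1 + 3 * q)) h →
  ∀ (_ : Fact (Nat.Prime 3)) (ι : QB →ₐ[ℚ] PadicAlgCl 3) (R : Pt (PadicAlgCl 3)),
    St1 hi ι a h R → c2 (1 + 3 * q) = g * c2 D + (t - b * g) * b

/-- M12 CUBM2: local solutions at `3`, type 2. -/
def S_CUBM2 : Prop := ∀ b : ℕ, b ≤ 2 →
  ∀ (_ : Fact (Nat.Prime 3)) (I : PadicAlgCl 3) (hI : I ^ 2 + I + 1 = 0) (B D : Ei) (t : ℕ),
  (3 : Ei) ∣ B - 1 → (3 : Ei) ∣ D - 1 → c2 B = b * t → c3 B = (b ^ 2 - c2 D) * t →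
    ∃ s t' r, Sol hI (w ^ t * B) (lam * w ^ b * D) s t' r

/-- the number of the solutions, type 1 -/
noncomputable def nK1 (a b : ZMod 3) {J : Type} [Fintype J] (π : J → Ei) (e : J → ZMod 3) : ℕ :=
  Nat.card {v : J → ZMod 3 //
    ∀ j, ∑ i, e i * cs (π j) (π i) * (v i - v j) = lf a b (π j) * v j}

/-- the number of the solutions, type 2 -/
noncomputable def nK2 (b : ZMod 3) {J : Type} [Fintype J] (π : J → Ei) (e : J → ZMod 3) : ℕ :=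
  Nat.card {p : (J → ZMod 3) × ZMod 3 //
    (∀ j, ∑ i, e i * cs (π j) (π i) * (p.1 i - p.1 j) + p.2 * c2 (π j) =
      (b * c2 (π j) - c3 (π j)) * p.1 j) ∧
    ∑ j, e j * c2 (π j) * p.1 j = b * p.2}

/-- M13 SELM1: the order of the Selmer group of `√-3`, type 1 (compare `sel_card` and the lemmas before
it in `Y696/XL/Sel.lean`, and the piece SELK3 of project CTL3, which is `k = 1`, `b = 0`): modulo the
class of `a` every Selmer class is `∏ π ^ (e v)`; the condition `lf b k (∏ π ^ (e v)) = 0` at `3`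
follows from the sum of the equations times `e j` (reciprocity, as in `t_KLOC3` in
`E8helper85/CT3/Kloc3.lean`). -/
def S_SELM1 : Prop := S_REC → S_SUPM → S_RAMM → S_LOCM1 → S_CUBM1 → S_FF → S_CUB → S_PT →
  ∀ (k b : ℕ), k ≤ 1 → b ≤ 2 → (k ≠ 0 ∨ b ≠ 0) →
  ∀ (J : Type) [Fintype J] [Nonempty J] (π : J → Ei) (e : J → ZMod 3), Dt π e →
  ∀ (i₀ : QB) (hi : i₀ ^ 2 + i₀ + 1 = 0) (u : QB) (a : GK i₀ → ZMod 3),
    Tw hi (3 ^ k * w ^ b * pD π e) u a → (SelH hi a).ncard = 3 * nK1 b k π e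

/-- M14 SELM2: the order of the Selmer group of `√-3`, type 2: modulo the class of `a` every Selmer
class is `ω ^ s ∏ π ^ (e v)`; at `π j` the condition is the equation `j`, at `3` it is
`c2 (∏ π ^ (e v)) = b s`; the equation for `c3` in CUBM2 follows: the sum of the equations times
`e j` is `s c2 (D) = b c2 (B) - c3 (B)`, `B = ∏ π ^ (e v)`. -/
def S_SELM2 : Prop := S_REC → S_SUPM → S_RAMM → S_LOCM2 → S_CUBM2 → S_FF → S_CUB → S_PT →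
  ∀ b : ℕ, b ≤ 2 →
  ∀ (J : Type) [Fintype J] [Nonempty J] (π : J → Ei) (e : J → ZMod 3), Dt π e →
  ∀ (i₀ : QB) (hi : i₀ ^ 2 + i₀ + 1 = 0) (u : QB) (a : GK i₀ → ZMod 3),
    Tw hi (lam * w ^ b * pD π e) u a → (SelH hi a).ncard = 3 * nK2 b π e

/-- M15 TRFM: from the characters to the Selmer group over `K` and the rank (compare
`Pool.Agent.R419.KL.main_pi` in `R419/KL/NS.lean`). -/
def S_TRFM : Prop := ∀ (c : Ei) (n : ℕ), c ∣ 3 ^ n →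
  ∀ (K : Type) [Field K] [NumberField K] (j : Ei ≃+* 𝓞 K)
  (J : Type) [Fintype J] [Nonempty J] (π : J → Ei) (e : J → ZMod 3), Dt π e → ∀ N : ℕ, N ≠ 0 →
  (∀ (i₀ : QB) (hi : i₀ ^ 2 + i₀ + 1 = 0) (u : QB) (a : GK i₀ → ZMod 3),
    Tw hi (c * pD π e) u a → (SelH hi a).ncard = 3 * N) →
  (SelK (j (c * pD π e) : K)).ncard = 3 * N ∧
    ∀ r : ℕ, N ≤ 3 ^ r → Module.finrank ℤ (ED (j (c * pD π e) : K)).toAffine.Point ≤ 2 * r

/-- M16 DATM: the numbers of solutions are powers of `3`, and the data of a pair (compare S_FACTL of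
CTL3, `Pool.Agent.E8helper20.CTK3.data3`). -/
def S_DATM : Prop :=
  (∀ (J : Type) [Fintype J] (π : J → Ei) (e : J → ZMod 3),
    (∀ a b : ZMod 3, ∃ r : ℕ, nK1 a b π e = 3 ^ r) ∧ ∀ b : ZMod 3, ∃ r : ℕ, nK2 b π e = 3 ^ r) ∧
  ∀ M S : Finset Ei, (∀ q ∈ S, Pq q) → M ⊆ S → S.Nonempty →
    ∃ (n : ℕ) (π : Fin (n + 1) → Ei) (e : Fin (n + 1) → ZMod 3), Dt π e ∧ el3 M S = pD π e ∧
      (∀ a b : ZMod 3, n1 a b M S = nK1 a b π e) ∧ ∀ b : ZMod 3, n2 b M S = nK2 b π e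

end Pool.Agent.E8helper20.CTM
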