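import Pool.Agent.E8helper20.CTM.StmA
import Pool.Agent.Y703.XL.Stm

/-!
# Project CTM (helper20): the multiplier `1`, all `D = 1` modulo `3` (second round)

`E_D : y² + D y = x³`, `D = 1` modulo `3` cube-free. If `c2 D ≠ 0` (the norm of `D` is not `1` modulo
`9`) this is `Pool.Agent.XL6.sel_card`; the case `c2 D = 0` is new: the local condition at `λ = √-3`
for the class of `ω ^ t λ ^ g B` (`B = 1` modulo `3`) is `3 ∣ g` and `c2 B = - c3 D * t` (checked by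
computer).
-/

set_option autoImplicit false
set_option linter.unusedVariables false

open scoped Classical

namespace Pool.Agent.E8helper20.CTM

open NumberField Finset
open Pool.Agent.Y692.QS (Ei w nr toC)
open Pool.Agent.Y715.T.Rec (cs)
open Pool.Agent.Y715.T.RecG (Pq)
open Pool.Agent.Y715.T.Gi Pool.Agent.Y715.T.Nr Pool.Agent.Y715.T.Df Pool.Agent.Y715.T.Ell
open Pool.Agent.Y703.CT
open Pool.Agent.Y703.XK (prs ext S_EQ)
open Pool.Agent.Y703.XL (cr S_LA S_ABS S_LIM)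
open Pool.Agent.R419.KF (wt)
open Pool.Agent.XL6 (SelH)
open Pool.Agent.E8helper20.CTK3 (el3)

/-- the number of the solutions of the bordered block system: the unknowns are `x : U → F`,
`y : J → F` and `s`; the last equation is there only when the labels of the border sum to zero (when
they do not, `s = 0` follows from the sum of the first equations) -/
noncomputable def nX {U J : Type} [Fintype U] [Fintype J] (A : U → U → ZMod 3)
    (B : U → J → ZMod 3) (g : U → ZMod 3) (c : J → ZMod 3) (d : ZMod 3) (R : J → J → ZMod 3) : ℕ :=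
  Nat.card {p : ((U → ZMod 3) × (J → ZMod 3)) × ZMod 3 //
    (∀ u, ∑ v, A u v * (p.1.1 v - p.1.1 u) + ∑ l, B u l * (p.1.2 l - p.1.1 u) + p.2 * g u = 0) ∧
    (∀ k, ∑ u, B u k * (p.1.1 u - p.1.2 k) + ∑ l, R k l * (p.1.2 l - p.1.2 k) + p.2 * c k = 0) ∧
    (∑ u, g u + ∑ k, c k = 0 → ∑ u, g u * p.1.1 u + ∑ k, c k * p.1.2 k + d * p.2 = 0)}

/-- X1 LAX: the law for the bordered block system (compare `Pool.Agent.Y994.XL.t_LA`,
`Y994/XL/LA.lean`, 222 lines). If `∑ g + ∑ c ≠ 0` the sum of all the equations gives `s = 0`, and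
this is `S_LA`. If `∑ g + ∑ c = 0`: the form on `(x, s, y)` is symmetric with `(1, 0, 1)` in the
radical; take `ks` (`Pool.Agent.Y85.XK.exists_ks` for `Option U` in place of `U`), normalise
`y ks = 0` (factor `3`), and apply `S_ABS` with `X = functions on Option U`, `V = functions on
{k ≠ ks}`, and `S_LIM`. -/
def S_LAX : Prop := S_ABS → S_LIM → S_LA → ∀ (r : ℕ) (U J : Type) [Fintype U] [Fintype J]
  [LinearOrder J] (A : U → U → ZMod 3) (B : U → J → ZMod 3) (g : U → ZMod 3) (c : J → ZMod 3)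
  (d : ZMod 3), Fintype.card U + 1 < Fintype.card J → (∀ u v, A u v = A v u) →
  (∀ (w : U → ZMod 3) (t : ZMod 3), (t ≠ 0 ∨ ∃ u, w u ≠ 0) →
    ∃ k, ∑ u, w u * B u k + t * c k ≠ 0) →
  |((univ.filter fun α : prs J → ZMod 3 => nX A B g c d (ext α) = 3 ^ (r + 1)).card : ℝ) /
      3 ^ (prs J).card - cr r| ≤ 3 ^ (r + 1) * (3 ^ (Fintype.card U + 1) / 3 ^ Fintype.card J)

/-- the number of the solutions `(v, s)` for the multiplier `1` -/
noncomputable def n0 (M S : Finset Ei) : ℕ :=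
  Nat.card {p : (S → ZMod 3) × ZMod 3 //
    (∀ π : S, ∑ ρ : S, wt M ρ * cs π ρ * (p.1 ρ - p.1 π) + p.2 * c2 π = 0) ∧
    (∑ ρ : S, wt M ρ * c2 ρ = 0 →
      ∑ ρ : S, wt M ρ * c2 ρ * p.1 ρ + (∑ ρ : S, wt M ρ * c3 ρ) * p.2 = 0)}

/-- X2 BOX0: (compare `Pool.Agent.E8helper55.CTM.t_BOX2`, `E8helper55/CTM/Box2.lean`, with the law
`LX` in place of `S_LA`): for fixed labels of the large primes (`c2`, `c3`, the symbols with the small
primes) `n0` is `nX` with `U = S₀`, `A u v = wt u * wt v * cs u v`, `B u k = wt u * cs u (p k)`,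
`g u = wt u * c2 u`, `c k = c2 (p k)`, `d = ∑ wt * c3`. -/
def S_BOX0 : Prop := S_EQ →
  (∀ (r : ℕ) (U J : Type) [Fintype U] [Fintype J]
    [LinearOrder J] (A : U → U → ZMod 3) (B : U → J → ZMod 3) (g : U → ZMod 3) (c : J → ZMod 3)
    (d : ZMod 3), Fintype.card U + 1 < Fintype.card J → (∀ u v, A u v = A v u) →
    (∀ (w : U → ZMod 3) (t : ZMod 3), (t ≠ 0 ∨ ∃ u, w u ≠ 0) →
      ∃ k, ∑ u, w u * B u k + t * c k ≠ 0) →
    |((univ.filter fun α : prs J → ZMod 3 => nX A B g c d (ext α) = 3 ^ (r + 1)).card : ℝ) /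
        3 ^ (prs J).card - cr r| ≤
      3 ^ (r + 1) * (3 ^ (Fintype.card U + 1) / 3 ^ Fintype.card J)) →
  ∀ r : ℕ, BoxM (fun M S => n0 M S = 3 ^ (r + 1)) (cr r) (3 ^ (r + 1))

/-- X3 LOCM3: the local condition at `3` for `a = D`, `D = 1` modulo `3 √-3` -/
def S_LOCM3 : Prop := ∀ (i₀ : QB) (hi : i₀ ^ 2 + i₀ + 1 = 0) (D : Ei), (3 : Ei) ∣ D - 1 →
  c2 D = 0 → ∀ (u : QB) (a : GK i₀ → ZMod 3), Tw hi D u a →
  ∀ (h : GK i₀ → ZMod 3) (v q : Ei) (g t : ℕ), (v = w ^ t ∨ v = -w ^ t) →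
    Kc hi (v * lam ^ g * (1 + 3 * q)) h →
  ∀ (_ : Fact (Nat.Prime 3)) (ι : QB →ₐ[ℚ] PadicAlgCl 3) (R : Pt (PadicAlgCl 3)),
    St1 hi ι a h R → 3 ∣ g ∧ c2 (1 + 3 * q) = -(c3 D * t)

/-- X4 CUBM3: local solutions at `3` for `a = D`, `D = 1` modulo `3 √-3` -/
def S_CUBM3 : Prop := ∀ (_ : Fact (Nat.Prime 3)) (I : PadicAlgCl 3) (hI : I ^ 2 + I + 1 = 0)
  (B D : Ei) (t : ℕ), (3 : Ei) ∣ B - 1 → (3 : Ei) ∣ D - 1 → c2 D = 0 → c2 B = -(c3 D * t) →
    ∃ s t' r, Sol hI (w ^ t * B) D s t' r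

/-- the number of the solutions `(v, s)` for the multiplier `1` -/
noncomputable def nK0 {J : Type} [Fintype J] (π : J → Ei) (e : J → ZMod 3) : ℕ :=
  Nat.card {p : (J → ZMod 3) × ZMod 3 //
    (∀ j, ∑ i, e i * cs (π j) (π i) * (p.1 i - p.1 j) + p.2 * c2 (π j) = 0) ∧
    (∑ j, e j * c2 (π j) = 0 →
      ∑ j, e j * c2 (π j) * p.1 j + (∑ j, e j * c3 (π j)) * p.2 = 0)}

/-- X5 SELM0: the order of the Selmer group of `√-3`. If `∑ j, e j * c2 (π j) = c2 (pD π e) ≠ 0` this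
is `Pool.Agent.XL6.sel_card` (then the sum of the equations times `e j` gives `s = 0`). If
`c2 D = 0` every Selmer class is `ω ^ s ∏ π ^ (e v)` (compare `E8helper44/CTM/SelM2.lean`, the
same with `b` and another condition at `3`; here no class is divided out: `D` itself is
`v = 1, s = 0`). -/
def S_SELM0 : Prop := S_REC → S_SUPM → S_RAMM → S_LOCM3 → S_CUBM3 → S_FF → S_CUB → S_PT →
  ∀ (J : Type) [Fintype J] [Nonempty J] (π : J → Ei) (e : J → ZMod 3), Dt π e →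
  ∀ (i₀ : QB) (hi : i₀ ^ 2 + i₀ + 1 = 0) (u : QB) (a : GK i₀ → ZMod 3),
    Tw hi (pD π e) u a → (SelH hi a).ncard = nK0 π e

/-- X6 DAT0: (compare `Pool.Agent.E8helper81.CTM.t_DATM`) -/
def S_DAT0 : Prop :=
  (∀ (J : Type) [Fintype J] [Nonempty J] (π : J → Ei) (e : J → ZMod 3),
    ∃ r : ℕ, nK0 π e = 3 ^ (r + 1)) ∧
  ∀ M S : Finset Ei, (∀ q ∈ S, Pq q) → M ⊆ S → S.Nonempty →
    ∃ (n : ℕ) (π : Fin (n + 1) → Ei) (e : Fin (n + 1) → ZMod 3), Dt π e ∧ el3 M S = pD π e ∧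
      n0 M S = nK0 π e

end Pool.Agent.E8helper20.CTM
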