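import Pool.Agent.E8helper20.CTM.KLevX
import Pool.Agent.E8helper56.CTM.Box1
import Pool.Agent.E8helper55.CTM.Box2
import Pool.Agent.E8helper57.CTM.Bad9
import Pool.Agent.E8helper87.CTM.Hal9
import Pool.Agent.E8helper89.CTM.Sup
import Pool.Agent.E8helper63.CTM.Key
import Pool.Agent.E8helper63.CTM.Den
import Pool.Agent.E8helper50.CTM.RAMM
import Pool.Agent.E8helper7.CTM.Loc1
import Pool.Agent.E8helper7.CTM.Cub1
import Pool.Agent.E8helper73.CTM.Locm2
import Pool.Agent.E8helper81.CTM.Cub2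
import Pool.Agent.E8helper81.CTM.Dat
import Pool.Agent.E8helper96.CTM.Sel1
import Pool.Agent.E8helper44.CTM.SelM2
import Pool.Agent.E8helper98.CTM.Trf
import Pool.Agent.E8helper54.CTM.LaxX
import Pool.Agent.E8helper56.CTM.Box0
import Pool.Agent.E8helper73.CTM.Locm3
import Pool.Agent.E8helper44.CTM.SelM0
import Pool.Agent.Y350.CT.REC
import Pool.Agent.Y319.CT.FF
import Pool.Agent.Y379.CT.Cub
import Pool.Agent.Y674.CT.PT

/-!
# Project CTM: the assembly, all the cubic twists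
-/

set_option autoImplicit false
set_option linter.unusedVariables false
set_option linter.unusedSectionVars false

open scoped Classical

namespace Pool.Agent.E8helper20.CTM.X

open NumberField Finset Filter
open Pool.Agent.E8helper20.CTM
open Pool.Agent.Y692.QS (Ei w nr nr_mul)
open Pool.Agent.Y715.T.Gi (lam prime_lam)
open Pool.Agent.Y703.CT
open Pool.Agent.Y703.XL (cr)
open Pool.Agent.Y696.CTK (ED)
open Pool.Agent.XL6 (SelK)

/-- the data for a multiplier -/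
theorem mds (hCUB3 : S_CUBM3) (hDAT0 : S_DAT0) (t : Fin 3 × Fin 3) :
    ∃ Nf : Finset Ei → Finset Ei → ℕ, MD (mE t) Nf := by
  have hREC := Pool.Agent.Y350.CT.rec
  have hSUP := Pool.Agent.E8helper89.CTM.t_SUPM
  have hRAM := Pool.Agent.E8helper50.CTM.t_RAMM
  have hFF := Pool.Agent.Y319.CT.t_FF
  have hC := Pool.Agent.Y379.CT.t_CUB
  have hPT := Pool.Agent.Y674.CT.t_PT
  have hDAT := Pool.Agent.E8helper81.CTM.t_DATM
  have m1 : ∀ k b : ℕ, k ≤ 1 → b ≤ 2 → (k ≠ 0 ∨ b ≠ 0) → MD (3 ^ k * w ^ b) (n1 b k) :=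
    fun k b hk hb h0 => md1 hREC hSUP hRAM Pool.Agent.E8helper7.CTM.t_LOCM1
      Pool.Agent.E8helper7.CTM.t_CUBM1 hFF hC hPT Pool.Agent.E8helper96.CTM.t_SELM1
      Pool.Agent.E8helper56.CTM.t_BOX1 hDAT k b hk hb h0
  have m2 : ∀ b : ℕ, b ≤ 2 → MD (lam * w ^ b) (n2 b) :=
    fun b hb => md2 hREC hSUP hRAM Pool.Agent.E8helper73.CTM.t_LOCM2
      Pool.Agent.E8helper81.CTM.t_CUBM2 hFF hC hPT Pool.Agent.E8helper44.CTM.t_SELM2
      Pool.Agent.E8helper55.CTM.t_BOX2 hDAT b hb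
  have m3 : MD 1 m0 := md0 hREC hSUP hRAM Pool.Agent.E8helper73.CTM.t_LOCM3 hCUB3 hFF hC hPT
    Pool.Agent.E8helper44.CTM.t_SELM0
    (Pool.Agent.E8helper56.CTM.t_BOX0 Pool.Agent.Y710.XK.t_EQ
      (Pool.Agent.E8helper54.CTM.t_LAX Pool.Agent.Y968.XL.t_ABS Pool.Agent.Y703.XL.t_LIM
        Pool.Agent.Y703.XL.t_LA)) hDAT0
  obtain ⟨k, b⟩ := t
  have hb : (b : ℕ) ≤ 2 := by omega
  fin_cases k
  · by_cases hb0 : (b : ℕ) = 0
    · have e : mE (((fun i => i) ⟨0, by decide⟩, b) : Fin 3 × Fin 3) = 1 := by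
        have : mE (((fun i => i) ⟨0, by decide⟩, b) : Fin 3 × Fin 3) = 1 * w ^ (b : ℕ) := rfl
        rw [this, hb0, pow_zero, mul_one]
      exact ⟨_, by rw [e]; exact m3⟩
    · have h := m1 0 (b : ℕ) (by norm_num) hb (Or.inr hb0)
      rw [pow_zero] at h
      exact ⟨_, h⟩
  · exact ⟨_, m2 (b : ℕ) hb⟩
  · have h := m1 1 (b : ℕ) le_rfl hb (Or.inl one_ne_zero)
    rw [pow_one] at h
    exact ⟨_, h⟩

theorem nr_mE (t : Fin 3 × Fin 3) : ∃ m : ℕ, nr (mE t) = m ∧ 0 < m := by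
  have h : nr (mE t) = ((nr (mE t)).natAbs : ℤ) ∧ 0 < (nr (mE t)).natAbs := by
    revert t
    decide
  exact ⟨_, h⟩

/-- the conjugation of the Eisenstein integers -/
def cj : Ei ≃+* Ei where
  toFun := star
  invFun := star
  left_inv := star_star
  right_inv := star_star
  map_mul' a b := by rw [star_mul, mul_comm]
  map_add' := star_add

theorem cj_w : cj w = -1 - w := by decide

theorem nr_cj (z : Ei) : nr (cj z) = nr z := by
  have h : cj z = star z := rfl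
  rw [h]
  unfold nr
  rw [QuadraticAlgebra.re_star, QuadraticAlgebra.im_star]
  ring

section
variable {K : Type} [Field K] [NumberField K] [IsCyclotomicExtension {3} ℚ K]

/-- every class -/
theorem law_all (hCUB3 : S_CUBM3) (hDAT0 : S_DAT0) (j : Ei ≃+* 𝓞 K)
    (hj : ∀ z : Ei, Algebra.norm ℤ (j z) = nr z) (t : Fin 3 × Fin 3) : LawK (InG (j w) t) := by
  obtain ⟨Nf, h⟩ := mds hCUB3 hDAT0 t
  obtain ⟨m, hm, hm0⟩ := nr_mE t
  exact lawG Pool.Agent.E8helper98.CTM.t_TRFM Pool.Agent.E8helper63.CTM.t_KEYM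
    Pool.Agent.E8helper63.CTM.t_DENM
    (Pool.Agent.E8helper57.CTM.t_BAD9 Pool.Agent.E8helper87.CTM.t_HAL9)
    Pool.Agent.E8helper6.CTK3.t_PAIR j hj t h m hm hm0

/-- an isomorphism with a given image of `w` -/
theorem ex_j (ω : 𝓞 K) (hω : ω ^ 2 + ω + 1 = 0) :
    ∃ j : Ei ≃+* 𝓞 K, (∀ z : Ei, Algebra.norm ℤ (j z) = nr z) ∧ j w = ω := by
  obtain ⟨⟨j, hj⟩, -⟩ := Pool.Agent.Y455.CTK.jex K
  have hww : (w : Ei) ^ 2 + w + 1 = 0 := by decide
  have h1 : j w ^ 2 + j w + 1 = 0 := by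
    have := congrArg j hww
    rwa [map_add, map_add, map_pow, map_one, map_zero] at this
  have h2 : (ω - j w) * (ω + 1 + j w) = 0 := by linear_combination hω - h1
  rcases mul_eq_zero.1 h2 with h | h
  · exact ⟨j, hj, (sub_eq_zero.1 h).symm⟩
  · refine ⟨cj.trans j, fun z => ?_, ?_⟩
    · rw [RingEquiv.trans_apply, hj, nr_cj]
    · rw [RingEquiv.trans_apply, cj_w, map_sub, map_neg, map_one]
      linear_combination -h

/-- **The laws.** -/
theorem final (hCUB3 : S_CUBM3) (hDAT0 : S_DAT0) (ω : 𝓞 K) (hω : ω ^ 2 + ω + 1 = 0)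
    (T : Finset (Fin 3 × Fin 3)) (hT : T.Nonempty) : LawK (fun a => ∃ t ∈ T, InG ω t a) := by
  obtain ⟨j, hj, rfl⟩ := ex_j ω hω
  exact LawK.union (fun t => InG (j w) t) (inG_disj j hj) (law_all hCUB3 hDAT0 j hj) T hT

/-- completeness -/
theorem complete (ω : 𝓞 K) (hω : ω ^ 2 + ω + 1 = 0) (a : 𝓞 K)
    (hcf : ∀ x : 𝓞 K, x ^ 3 ∣ a → IsUnit x) (hnd : ∀ n : ℕ, ¬ a ∣ 3 ^ n) :
    (∃ t ∈ (univ : Finset (Fin 3 × Fin 3)), InG ω t a) ∨
      ∃ t ∈ (univ : Finset (Fin 3 × Fin 3)), InG ω t (-a) := by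
  obtain ⟨j, hj, rfl⟩ := ex_j ω hω
  exact complGK j hj a hcf hnd

end

end Pool.Agent.E8helper20.CTM.X
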