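import Pool.Agent.E8helper20.CTM.KLev

/-!
# Project CTM: the classes contain all the cube-free elements up to sign, with one exception
-/

set_option autoImplicit false
set_option linter.unusedVariables false
set_option linter.unusedSectionVars false

open scoped Classical

namespace Pool.Agent.E8helper20.CTM

open NumberField Finset Filter
open Pool.Agent.Y692.QS (Ei w nr nr_mul ep ns ep_cases ns_one epz nr_mod mul_star star_re star_im mul_re mul_im)
open Pool.Agent.Y715.T.Gi (lam prime_lam CF)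
open Pool.Agent.E8helper20.CTK3 (ClsC3)

theorem star_lam : star (lam : Ei) = -lam := by decide

theorem three_nr {z : Ei} (h : (3 : ℤ) ∣ nr z) : lam ∣ z := by
  have h1 : (lam : Ei) ∣ z * star z := by
    rw [mul_star]
    have h2 : ((3 : ℤ) : Ei) ∣ ((nr z : ℤ) : Ei) := by
      obtain ⟨c, hc⟩ := h
      exact ⟨(c : Ei), by rw [hc]; push_cast; ring⟩
    have h3 : lam ∣ ((3 : ℤ) : Ei) := by
      have := lam_dvd_three
      exact_mod_cast this
    exact h3.trans h2
  rcases prime_lam.dvd_or_dvd h1 with h2 | h2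
  · exact h2
  · obtain ⟨c, hc⟩ := h2
    refine ⟨-star c, ?_⟩
    have h3 := congrArg star hc
    rw [star_star, star_mul, star_lam] at h3
    rw [h3]
    ring

theorem ep_form {z : Ei} (h : ¬ lam ∣ z) : ∃ b : Fin 3, ep z = w ^ (b : ℕ) ∨ ep z = -w ^ (b : ℕ) := by
  have h0 : ¬ (3 : ℤ) ∣ nr z := fun h' => h (three_nr h')
  have h1 : ((nr z : ℤ) : ZMod 3) ≠ 0 := by
    intro h'
    exact h0 ((ZMod.intCast_zmod_eq_zero_iff_dvd _ 3).1 h')
  rw [nr_mod] at h1
  unfold ep
  generalize ((z.re : ℤ) : ZMod 3) = x at *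
  generalize ((z.im : ℤ) : ZMod 3) = y at *
  clear h h0
  revert x y
  decide

theorem decomp {z : Ei} (h : ¬ lam ∣ z) :
    ∃ (b : Fin 3) (y : Ei), (3 : Ei) ∣ y - 1 ∧ (z = w ^ (b : ℕ) * y ∨ -z = w ^ (b : ℕ) * y) := by
  have h0 : ¬ (3 : ℤ) ∣ nr z := fun h' => h (three_nr h')
  obtain ⟨b, hb⟩ := ep_form h
  have h1 := (ep_cases z h0).2
  have h2 : z = ep z * ns z := by
    unfold ns
    linear_combination (-z) * h1
  refine ⟨b, ns z, ns_one h0, ?_⟩
  rcases hb with hb | hb
  · left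
    rw [← hb]
    exact h2
  · right
    rw [hb] at h2
    linear_combination (-1 : Ei) * h2

theorem nr_nine {y : Ei} (h3 : (3 : Ei) ∣ y - 1) (h9 : (9 : ℤ) ∣ nr y - 1) : 3 * lam ∣ y - 1 := by
  obtain ⟨c, hc⟩ := h3
  have hy : y = 1 + 3 * c := by linear_combination hc
  have h1 : nr y - 1 = 3 * (2 * c.re - c.im) + 9 * nr c := by
    rw [hy]
    unfold nr
    have e1 : (1 + 3 * c : Ei).re = 1 + 3 * c.re := by
      rw [QuadraticAlgebra.re_add, mul_re]
      have a1 : (1 : Ei).re = 1 := rfl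
      have a2 : (3 : Ei).re = 3 := rfl
      have a3 : (3 : Ei).im = 0 := rfl
      rw [a1, a2, a3]
      ring
    have e2 : (1 + 3 * c : Ei).im = 3 * c.im := by
      rw [QuadraticAlgebra.im_add, mul_im]
      have a1 : (1 : Ei).im = 0 := rfl
      have a2 : (3 : Ei).re = 3 := rfl
      have a3 : (3 : Ei).im = 0 := rfl
      rw [a1, a2, a3]
      ring
    rw [e1, e2]
    ring
  rw [h1] at h9
  have h2 : (3 : ℤ) ∣ c.re + c.im := by omega
  obtain ⟨m, hm⟩ := h2
  have h3' : lam ∣ c := by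
    apply three_nr
    refine ⟨3 * m ^ 2 - c.re * c.im, ?_⟩
    unfold nr
    have : c.re = 3 * m - c.im := by linarith
    rw [this]
    ring
  obtain ⟨d, hd⟩ := h3'
  exact ⟨d, by rw [hc, hd]; ring⟩

/-- **Completeness.** -/
theorem compl (z : Ei) (hcf : ∀ x : Ei, x ^ 3 ∣ z → IsUnit x) (hnd : ∀ n : ℕ, ¬ z ∣ 3 ^ n)
    (h1 : ¬ 3 * lam ∣ z - 1) (h2 : ¬ 3 * lam ∣ z + 1) :
    ∃ t : Fin 3 × Fin 3, (∃ y, ClE t y ∧ z = mE t * y) ∨ ∃ y, ClE t y ∧ -z = mE t * y := by
  have hsq := Pool.Agent.Y715.T.Gi.lam_sq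
  have hz0 : z ≠ 0 := by
    rintro rfl
    exact not_isUnit_zero (hcf 0 (by rw [zero_pow three_ne_zero]))
  -- the common part
  have key : ∀ (t : Fin 3 × Fin 3) (y : Ei), (3 : Ei) ∣ y - 1 → (z = mE t * y ∨ -z = mE t * y) →
      (t = (0, 0) → z = y ∨ -z = y) → (∃ y, ClE t y ∧ z = mE t * y) ∨ ∃ y, ClE t y ∧ -z = mE t * y := by
    intro t y hy hzy h00
    have hyz : y ∣ z := by
      rcases hzy with h | h
      · exact ⟨mE t, by rw [h, mul_comm]⟩
      · exact ⟨-mE t, by linear_combination (-1 : Ei) * h⟩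
    have hy1 : y ≠ 1 := by
      rintro rfl
      apply hnd 1
      have h3 : mE t ∣ 3 ^ 1 := by
        have hu := unit_w (t.2 : ℕ)
        unfold mE
        rw [hu.mul_right_dvd, pow_one]
        split_ifs
        · exact one_dvd _
        · exact lam_dvd_three
        · exact dvd_rfl
      rw [mul_one] at hzy
      rcases hzy with h | h
      · rw [h]; exact h3
      · rw [← neg_dvd, h]; exact h3
    have hc : ClE t y := by
      refine ⟨⟨hy, ⟨fun h => hz0 (by rw [h, zero_dvd_iff] at hyz; exact hyz),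
        fun x hx => hcf x (hx.trans hyz)⟩, hy1⟩, fun ht h9 => ?_⟩
      have h4 := nr_nine hy h9
      rcases h00 ht with h | h
      · rw [h] at h1
        exact h1 h4
      · apply h2
        have : z + 1 = -(y - 1) := by linear_combination -h
        rw [this]
        exact (dvd_neg).2 h4
    rcases hzy with h | h
    · exact Or.inl ⟨y, hc, h⟩
    · exact Or.inr ⟨y, hc, h⟩
  by_cases ha : lam ∣ z
  · obtain ⟨z1, rfl⟩ := ha
    by_cases hb : lam ∣ z1
    · obtain ⟨z2, rfl⟩ := hb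
      by_cases hc : lam ∣ z2
      · exfalso
        obtain ⟨z3, rfl⟩ := hc
        exact prime_lam.not_isUnit (hcf lam ⟨z3, by ring⟩)
      · obtain ⟨b, y, hy, hd⟩ := decomp hc
        refine ⟨(2, b), key (2, b) y hy ?_ fun h => ?_⟩
        · have e : mE ((2, b) : Fin 3 × Fin 3) = 3 * w ^ (b : ℕ) := rfl
          rw [e]
          rcases hd with hd | hd
          · right
            linear_combination (-z2) * hsq + 3 * hd
          · left
            linear_combination z2 * hsq + 3 * hd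
        · exact absurd (congrArg Prod.fst h) (by simp)
    · obtain ⟨b, y, hy, hd⟩ := decomp hb
      refine ⟨(1, b), key (1, b) y hy ?_ fun h => ?_⟩
      · have e : mE ((1, b) : Fin 3 × Fin 3) = lam * w ^ (b : ℕ) := rfl
        rw [e]
        rcases hd with hd | hd
        · left
          linear_combination lam * hd
        · right
          linear_combination lam * hd
      · exact absurd (congrArg Prod.fst h) (by simp)
  · obtain ⟨b, y, hy, hd⟩ := decomp ha
    have e : mE ((0, b) : Fin 3 × Fin 3) = w ^ (b : ℕ) := by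
      have : mE ((0, b) : Fin 3 × Fin 3) = 1 * w ^ (b : ℕ) := rfl
      rw [this, one_mul]
    refine ⟨(0, b), key (0, b) y hy (by rw [e]; exact hd) fun h => ?_⟩
    have hb : b = 0 := congrArg Prod.snd h
    rw [hb] at hd
    simpa using hd

/-- completeness over `K` -/
theorem complK {K : Type} [Field K] [NumberField K] (j : Ei ≃+* 𝓞 K)
    (hj : ∀ z : Ei, Algebra.norm ℤ (j z) = nr z) (a : 𝓞 K) (hcf : ∀ x : 𝓞 K, x ^ 3 ∣ a → IsUnit x)
    (hnd : ∀ n : ℕ, ¬ a ∣ 3 ^ n) (h1 : ¬ 3 * (1 + 2 * j w) ∣ a - 1) (h2 : ¬ 3 * (1 + 2 * j w) ∣ a + 1) :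
    (∃ t ∈ (univ : Finset (Fin 3 × Fin 3)), InF (j w) t a) ∨
      ∃ t ∈ (univ : Finset (Fin 3 × Fin 3)), InF (j w) t (-a) := by
  obtain ⟨z, rfl⟩ := j.surjective a
  have e3 : j (3 * lam) = 3 * (1 + 2 * j w) := by
    rw [map_mul, map_ofNat, lam_eq, map_add, map_mul, map_one, map_ofNat]
  rw [← e3] at h1 h2
  have d : ∀ x y : Ei, x ∣ y ↔ j x ∣ j y := fun x y => (map_dvd_iff j).symm
  obtain ⟨t, h⟩ := compl z (fun x hx => (MulEquiv.isUnit_map j).1 (hcf (j x) (by
      rw [← map_pow]; exact map_dvd j hx)))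
    (fun n hn => hnd n (by
      have := map_dvd j hn
      rwa [map_pow, map_ofNat] at this))
    (fun h => h1 (by rw [← map_one j, ← map_sub]; exact map_dvd j h))
    (fun h => h2 (by rw [← map_one j, ← map_add]; exact map_dvd j h))
  rcases h with ⟨y, hy, rfl⟩ | ⟨y, hy, h3⟩
  · exact Or.inl ⟨t, mem_univ t, (inF_iff j hj t _).2 ⟨y, hy, rfl⟩⟩
  · refine Or.inr ⟨t, mem_univ t, (inF_iff j hj t _).2 ⟨y, hy, ?_⟩⟩
    rw [← map_neg, h3]

end Pool.Agent.E8helper20.CTM
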