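import Pool.Agent.E8helper20.CTM.StmX
import Pool.Agent.E8helper81.CTM.Dat

/-!
# Project CTM, part X6: the data of a pair, the multiplier `1` (adapted from `E8helper81/CTM/Dat.lean`)
-/

set_option autoImplicit false
set_option linter.unusedVariables false
set_option linter.unusedSectionVars false

open scoped Classical

namespace Pool.Agent.E8helper20.CTM

open NumberField Finset
open Pool.Agent.Y692.QS (Ei w nr toC)
open Pool.Agent.Y715.T.RecG (Pq)
open Pool.Agent.Y703.CT (Dt pD)
open Pool.Agent.Y715.T.Rec (cs nn)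
open Pool.Agent.R419.KF (wt)
open Pool.Agent.E8helper20.CTK3 (el3)
open Pool.Agent.E8helper81.CTL3 (wt_ne)
open Pool.Agent.E8helper81.CTM (card_pow3)

lemma pow0 {J : Type} [Fintype J] [Nonempty J] (π : J → Ei) (e : J → ZMod 3) :
    ∃ r : ℕ, nK0 π e = 3 ^ (r + 1) := by
  have key : ∃ r : ℕ, nK0 π e = 3 ^ r := by
    unfold nK0
    refine card_pow3 (V := (J → ZMod 3) × ZMod 3)
      (fun p => (∀ j, ∑ i, e i * cs (π j) (π i) * (p.1 i - p.1 j) + p.2 * c2 (π j) = 0) ∧
      (∑ j, e j * c2 (π j) = 0 →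
        ∑ j, e j * c2 (π j) * p.1 j + (∑ j, e j * c3 (π j)) * p.2 = 0)) ?_ ?_ ?_
    · constructor
      · intro j
        simp
      · simp
    · intro x y hx hy
      refine ⟨fun j => ?_, fun h0 => ?_⟩
      · have h1 := hx.1 j
        have h2 := hy.1 j
        have h3 : ∑ i, e i * cs (π j) (π i) * ((x + y).1 i - (x + y).1 j) =
            ∑ i, e i * cs (π j) (π i) * (x.1 i - x.1 j) +
            ∑ i, e i * cs (π j) (π i) * (y.1 i - y.1 j) := by
          rw [← Finset.sum_add_distrib]
          exact Finset.sum_congr rfl fun i _ => by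
            rw [Prod.fst_add, Pi.add_apply, Pi.add_apply]; ring
        rw [h3, Prod.snd_add]
        linear_combination h1 + h2
      · have h1 := hx.2 h0
        have h2 := hy.2 h0
        have h3 : ∑ j, e j * c2 (π j) * (x + y).1 j =
            ∑ j, e j * c2 (π j) * x.1 j + ∑ j, e j * c2 (π j) * y.1 j := by
          rw [← Finset.sum_add_distrib]
          exact Finset.sum_congr rfl fun i _ => by
            rw [Prod.fst_add, Pi.add_apply]; ring
        rw [h3, Prod.snd_add]
        linear_combination h1 + h2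
    · intro c x hx
      refine ⟨fun j => ?_, fun h0 => ?_⟩
      · have h1 := hx.1 j
        have h3 : ∑ i, e i * cs (π j) (π i) * ((c • x).1 i - (c • x).1 j) =
            c * ∑ i, e i * cs (π j) (π i) * (x.1 i - x.1 j) := by
          rw [Finset.mul_sum]
          exact Finset.sum_congr rfl fun i _ => by
            rw [Prod.smul_fst, Pi.smul_apply, Pi.smul_apply, smul_eq_mul, smul_eq_mul]; ring
        rw [h3, Prod.smul_snd, smul_eq_mul]
        linear_combination c * h1
      · have h1 := hx.2 h0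
        have h3 : ∑ j, e j * c2 (π j) * (c • x).1 j = c * ∑ j, e j * c2 (π j) * x.1 j := by
          rw [Finset.mul_sum]
          exact Finset.sum_congr rfl fun i _ => by
            rw [Prod.smul_fst, Pi.smul_apply, smul_eq_mul]; ring
        rw [h3, Prod.smul_snd, smul_eq_mul]
        linear_combination c * h1
  obtain ⟨r, hr⟩ := key
  rcases Nat.eq_zero_or_pos r with h0 | h0
  · exfalso
    rw [h0, pow_zero] at hr
    unfold nK0 at hr
    have h5 := (Nat.card_eq_one_iff_unique.1 hr).1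
    have hz : (∀ j, ∑ i, e i * cs (π j) (π i) * ((0 : (J → ZMod 3) × ZMod 3).1 i -
        (0 : (J → ZMod 3) × ZMod 3).1 j) + (0 : (J → ZMod 3) × ZMod 3).2 * c2 (π j) = 0) ∧
        (∑ j, e j * c2 (π j) = 0 → ∑ j, e j * c2 (π j) * (0 : (J → ZMod 3) × ZMod 3).1 j +
          (∑ j, e j * c3 (π j)) * (0 : (J → ZMod 3) × ZMod 3).2 = 0) := by
      constructor
      · intro j
        simp
      · simp
    have ho : (∀ j, ∑ i, e i * cs (π j) (π i) * (((fun _ => 1, 0) : (J → ZMod 3) × ZMod 3).1 i -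
        ((fun _ => 1, 0) : (J → ZMod 3) × ZMod 3).1 j) +
          ((fun _ => 1, 0) : (J → ZMod 3) × ZMod 3).2 * c2 (π j) = 0) ∧
        (∑ j, e j * c2 (π j) = 0 →
          ∑ j, e j * c2 (π j) * ((fun _ => 1, 0) : (J → ZMod 3) × ZMod 3).1 j +
          (∑ j, e j * c3 (π j)) * ((fun _ => 1, 0) : (J → ZMod 3) × ZMod 3).2 = 0) := by
      constructor
      · intro j
        simp
      · intro h
        simpa using h
    have h6 := congrArg Subtype.val (Subsingleton.elim
      (⟨_, ho⟩ : {p : (J → ZMod 3) × ZMod 3 //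
        (∀ j, ∑ i, e i * cs (π j) (π i) * (p.1 i - p.1 j) + p.2 * c2 (π j) = 0) ∧
        (∑ j, e j * c2 (π j) = 0 →
          ∑ j, e j * c2 (π j) * p.1 j + (∑ j, e j * c3 (π j)) * p.2 = 0)}) ⟨_, hz⟩)
    have h7 := congrFun (congrArg Prod.fst h6) (Classical.arbitrary J)
    exact one_ne_zero h7
  · obtain ⟨s, rfl⟩ := Nat.exists_eq_succ_of_ne_zero h0.ne'
    exact ⟨s, hr⟩

/-- the data of a pair -/
theorem data0 {M S : Finset Ei} (hS : ∀ q ∈ S, Pq q) (hM : M ⊆ S) (hne' : S.Nonempty) :
    ∃ (n : ℕ) (π : Fin (n + 1) → Ei) (e : Fin (n + 1) → ZMod 3), Dt π e ∧ el3 M S = pD π e ∧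
      n0 M S = nK0 π e := by
  have hne : S.card ≠ 0 := (card_pos.2 hne').ne'
  obtain ⟨n, hn⟩ := Nat.exists_eq_succ_of_ne_zero hne
  obtain ⟨eq, -⟩ : ∃ eq : S ≃ Fin (n + 1), True := ⟨S.equivFinOfCardEq hn, trivial⟩
  obtain ⟨π, hπ⟩ : ∃ π : Fin (n + 1) → Ei, π = fun i => (eq.symm i : Ei) := ⟨_, rfl⟩
  have hmem : ∀ i, π i ∈ S := fun i => by rw [hπ]; exact (eq.symm i).2
  have hinj : Function.Injective π := fun a b hab => eq.symm.injective (Subtype.ext (by
    rw [hπ] at hab
    exact hab))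
  have himg : Finset.univ.image π = S := by
    ext q
    rw [mem_image]
    constructor
    · rintro ⟨i, -, rfl⟩
      exact hmem i
    · intro hq
      refine ⟨eq ⟨q, hq⟩, mem_univ _, ?_⟩
      simp [hπ]
  refine ⟨n, π, fun i => wt M (π i), ⟨fun i => hS _ (hmem i), fun i j hij hd => ?_,
    fun i => wt_ne M _⟩, ?_, ?_⟩
  · exact hij (hinj (Pool.Agent.Y699.E.eq_of_dvd (hS _ (hmem j)) (hS _ (hmem i)) hd)).symm
  · unfold pD el3
    have h2 : ∏ q ∈ S, q ^ (wt M q).val = ∏ i, π i ^ (wt M (π i)).val := by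
      rw [← himg, prod_image fun a _ b _ h => hinj h]
    rw [← h2]
    have h4 : ∏ q ∈ M, q = ∏ q ∈ S, if q ∈ M then q else 1 := by
      rw [prod_ite_mem, inter_eq_right.2 hM]
    rw [h4, ← prod_mul_distrib]
    refine prod_congr rfl fun q _ => ?_
    unfold wt
    split_ifs with hq
    · have : (2 : ZMod 3).val = 2 := by decide
      rw [this, pow_two]
    · have : (1 : ZMod 3).val = 1 := by decide
      rw [this, pow_one, mul_one]
  · unfold n0 nK0
    refine Nat.card_congr (((Equiv.arrowCongr eq (Equiv.refl (ZMod 3))).prodCongr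
      (Equiv.refl (ZMod 3))).subtypeEquiv fun p => ?_)
    subst hπ
    have hs : ∀ f : Ei → ZMod 3, ∑ ρ : S, f ρ = ∑ i, f ((fun i => (eq.symm i : Ei)) i) := fun f => by
      rw [← Equiv.sum_comp eq.symm]
    constructor
    · intro h
      refine ⟨fun j => ?_, fun h0 => ?_⟩
      · have h1 := h.1 (eq.symm j)
        rw [← Equiv.sum_comp eq.symm] at h1
        exact h1
      · have h1 := h.2 (by
          rw [← Equiv.sum_comp eq.symm]
          exact h0)
        rw [← Equiv.sum_comp eq.symm, ← Equiv.sum_comp eq.symm (fun ρ : S => wt M ρ * c3 ρ)] at h1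
        exact h1
    · intro h
      refine ⟨fun x => ?_, fun h0 => ?_⟩
      · obtain ⟨j, rfl⟩ := eq.symm.surjective x
        rw [← Equiv.sum_comp eq.symm]
        exact h.1 j
      · rw [← Equiv.sum_comp eq.symm] at h0
        rw [← Equiv.sum_comp eq.symm, ← Equiv.sum_comp eq.symm (fun ρ : S => wt M ρ * c3 ρ)]
        exact h.2 h0

theorem t_DAT0 : S_DAT0 :=
  ⟨fun J _ _ π e => pow0 π e, fun M S hS hM hne => data0 hS hM hne⟩

end Pool.Agent.E8helper20.CTM
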