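import Pool.Agent.Y703.XL.Fin
import Pool.Agent.R419.KL.Sel3
import Pool.Agent.Y455.CTK.JEX
import Pool.Agent.Y696.XL.SelK
import Pool.Agent.Y699.E.Pd

/-!
# Project CTM: consequences of a law, for any set of twists

Adapted from `R419/KL/Cor.lean` and `R419/KL/Rank.lean` of helper419: the class is replaced by an
arbitrary set `A`.
-/

set_option autoImplicit false
set_option linter.unusedVariables false
set_option linter.unusedSectionVars false

open scoped Classical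

namespace Pool.Agent.E8helper20.CTM

open NumberField Filter TensorProduct
open Pool.Agent.Y692.QS (Ei nr)
open Pool.Agent.Y703.XL (cr)
open Pool.Agent.Y696.CTK (ED)
open Pool.Agent.XL6 (SelK)
open Pool.Agent.Y703.XL.Inf (killed)
open Pool.Agent.TH841.SH.D (Pt)
open Pool.Agent.R419.KL (Sel3 sel3_facts)

/-- the limits are positive and sum to one, and the first one -/
theorem prob_facts : (∀ r, 0 < cr r) ∧ 0.639 < cr 0 ∧ cr 0 < 0.6391 ∧ HasSum cr 1 := by
  have hc9 := Pool.Agent.Y703.XL.t_C9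
  have hp0 : cr 0 = Pool.Agent.Y703.XK.c9 := by
    unfold Pool.Agent.Y703.XL.cr
    rw [Finset.prod_range_zero, div_one]
  refine ⟨Pool.Agent.Y703.XL.cr_pos hc9, ?_, ?_, Pool.Agent.Y703.XL.t_SUM'⟩
  · rw [hp0]
    exact hc9.2.2.2.1
  · rw [hp0]
    exact hc9.2.2.2.2

/-- the rank of a group with an endomorphism `w`, `w² + w + 1 = 0`, is even -/
theorem even_rank {M : Type} [AddCommGroup M] (w : M →+ M) (h : ∀ x, w (w x) + w x + x = 0) :
    Even (Module.finrank ℤ M) := by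
  have e1 : Module.finrank ℚ (ℚ ⊗[ℤ] M) = Module.finrank ℤ M :=
    (TensorProduct.isBaseChange ℤ M ℚ).finrank_eq
  rw [← e1]
  obtain ⟨J, hJ⟩ : ∃ J : M →ₗ[ℤ] M, ∀ x, J x = 2 • w x + x :=
    ⟨(2 • w + AddMonoidHom.id M).toIntLinearMap, fun x => rfl⟩
  have hJJ : J ∘ₗ J = (-3 : ℤ) • LinearMap.id := by
    ext x
    rw [LinearMap.comp_apply, hJ, hJ, map_add, map_nsmul, LinearMap.smul_apply, LinearMap.id_apply]
    have h1 := h x
    have h2 : w (w x) = -(w x) - x := by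
      rw [← sub_eq_zero, ← h1]
      abel
    rw [h2]
    module
  have hB : (J.baseChange ℚ) ∘ₗ (J.baseChange ℚ) = (-3 : ℚ) • LinearMap.id := by
    rw [← LinearMap.baseChange_comp, hJJ, LinearMap.baseChange_smul, LinearMap.baseChange_id]
    ext x
    simp [← Int.cast_smul_eq_zsmul ℚ]
  have hdet := congrArg LinearMap.det hB
  rw [LinearMap.det_comp, LinearMap.det_smul, LinearMap.det_id, mul_one] at hdet
  by_contra hodd
  rw [Nat.not_even_iff_odd] at hodd
  have h3 : (-3 : ℚ) ^ Module.finrank ℚ (ℚ ⊗[ℤ] M) < 0 := Odd.pow_neg hodd (by norm_num)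
  have h4 := mul_self_nonneg (LinearMap.det (J.baseChange ℚ))
  linarith

theorem even_pt {K : Type} [Field K] [CharZero K] {D z : K} (hD : D ≠ 0)
    (hz : z ^ 2 + z + 1 = 0) : Even (Module.finrank ℤ (ED D).toAffine.Point) := by
  have h := even_rank (Pool.Agent.Y703.XL.Inf.rh (D := D) (L := K) hz) fun x => by
    rw [← Pool.Agent.Y703.XL.Inf.nrm hD hz x]
    abel
  exact h

/-- a third root of unity -/
theorem ex_root (K : Type) [Field K] [NumberField K] [IsCyclotomicExtension {3} ℚ K] :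
    ∃ ω : K, ω ^ 2 + ω + 1 = 0 := by
  obtain ⟨⟨j, hj⟩, -⟩ := Pool.Agent.Y455.CTK.jex K
  have hww : (Pool.Agent.Y692.QS.w : Pool.Agent.Y692.QS.Ei) ^ 2 + Pool.Agent.Y692.QS.w + 1 = 0 := by
    decide
  refine ⟨((j Pool.Agent.Y692.QS.w : 𝓞 K) : K), ?_⟩
  have h2 := congrArg (fun z => ((j z : 𝓞 K) : K)) hww
  simp only [map_add, map_pow, map_one, map_zero] at h2
  exact h2

theorem fin_K (K : Type) [Field K] [NumberField K] [IsCyclotomicExtension {3} ℚ K] (X : ℕ) :
    {D : 𝓞 K | Algebra.norm ℤ D ≤ X}.Finite := by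
  obtain ⟨⟨j, hj⟩, -⟩ := Pool.Agent.Y455.CTK.jex K
  refine ((Pool.Agent.Y699.E.fin_norm_le X).image j).subset ?_
  intro D hD
  obtain ⟨z, rfl⟩ := j.surjective D
  refine ⟨z, ?_, rfl⟩
  have h1 : Algebra.norm ℤ (j z) ≤ X := hD
  rw [hj, ← Pool.Agent.Y699.E.nrm_cast] at h1
  exact_mod_cast h1

section
variable {K : Type} [Field K] [NumberField K]

/-- the number of the `a` of norm at most `X` in a set -/
noncomputable def cnt (A : 𝓞 K → Prop) (X : ℕ) : ℕ := {a : 𝓞 K | Algebra.norm ℤ a ≤ X ∧ A a}.ncard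

/-- the proportion -/
noncomputable def prp (A P : 𝓞 K → Prop) (X : ℕ) : ℝ :=
  (cnt (fun a => A a ∧ P a) X : ℝ) / (cnt A X : ℝ)

/-- the law for a set `A` -/
structure LawK (A : 𝓞 K → Prop) : Prop where
  one : ∀ a : 𝓞 K, A a → (a : K) ≠ 0 ∧ (∀ t : K, t ^ 3 ≠ (a : K)) ∧
    ∃ r : ℕ, (SelK (a : K)).ncard = 3 ^ (r + 1) ∧
      Module.finrank ℤ (ED (a : K)).toAffine.Point ≤ 2 * r
  low : ∃ c : ℝ, 0 < c ∧ ∃ X₀ : ℕ, ∀ X : ℕ, X₀ ≤ X → c * X ≤ (cnt A X : ℝ)
  law : ∀ r : ℕ, Tendsto (prp A (fun a : 𝓞 K => (SelK (a : K)).ncard = 3 ^ (r + 1))) atTop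
    (nhds (cr r))

variable [IsCyclotomicExtension {3} ℚ K] {A : 𝓞 K → Prop}

theorem cnt_mono {P Q : 𝓞 K → Prop} (h : ∀ D, P D → Q D) (X : ℕ) : cnt P X ≤ cnt Q X :=
  Set.ncard_le_ncard (fun D hD => ⟨hD.1, h D hD.2⟩) ((fin_K K X).subset fun D hD => hD.1)

theorem cnt_or {P Q : 𝓞 K → Prop} (h : ∀ D, P D → ¬ Q D) (X : ℕ) :
    cnt (fun D => P D ∨ Q D) X = cnt P X + cnt Q X := by
  unfold cnt
  have h1 : {D : 𝓞 K | Algebra.norm ℤ D ≤ X ∧ (P D ∨ Q D)} =
      {D : 𝓞 K | Algebra.norm ℤ D ≤ X ∧ P D} ∪ {D : 𝓞 K | Algebra.norm ℤ D ≤ X ∧ Q D} := by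
    ext D
    exact and_or_left
  rw [h1, Set.ncard_union_eq _ ((fin_K K X).subset fun D hD => hD.1)
    ((fin_K K X).subset fun D hD => hD.1)]
  rw [Set.disjoint_left]
  rintro D ⟨-, h2⟩ ⟨-, h4⟩
  exact h D h2 h4

theorem prp_mono {P Q : 𝓞 K → Prop}
    (h : ∀ D, A D → P D → Q D) (X : ℕ) : prp A P X ≤ prp A Q X := by
  unfold prp
  have h1 := cnt_mono (K := K) (P := fun a => A a ∧ P a) (Q := fun a => A a ∧ Q a)
    (fun D hD => ⟨hD.1, h D hD.1 hD.2⟩) X
  have h2 : (cnt (fun a => A a ∧ P a) X : ℝ) ≤ (cnt (fun a => A a ∧ Q a) X : ℝ) := by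
    exact_mod_cast h1
  exact div_le_div_of_nonneg_right h2 (Nat.cast_nonneg _)

theorem prp_congr {P Q : 𝓞 K → Prop} (h : ∀ D, A D → (P D ↔ Q D)) (X : ℕ) :
    prp A P X = prp A Q X :=
  le_antisymm (prp_mono (fun D hD => (h D hD).1) X) (prp_mono (fun D hD => (h D hD).2) X)

theorem prp_add {P Q : 𝓞 K → Prop}
    (h : ∀ D, A D → P D → ¬ Q D) (X : ℕ) :
    prp A (fun D => P D ∨ Q D) X = prp A P X + prp A Q X := by
  unfold prp
  rw [← add_div]
  congr 1
  have h1 := cnt_or (K := K) (P := fun a => A a ∧ P a) (Q := fun a => A a ∧ Q a)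
    (fun D hD hD' => h D hD.1 hD.2 hD'.2) X
  have h2 : cnt (fun a => A a ∧ (P a ∨ Q a)) X = cnt (fun a => A a ∧ P a ∨ A a ∧ Q a) X := by
    congr 1
    ext a
    exact and_or_left
  rw [h2, h1]
  push_cast
  rfl

/-- the cumulative law -/
theorem cumT (h : LawK A) (r : ℕ) :
    Tendsto (prp A (fun D : 𝓞 K => (SelK (D : K)).ncard ≤ 3 ^ r)) atTop
      (nhds (∑ i ∈ Finset.range r, cr i)) := by
  induction r with
  | zero =>
    rw [Finset.range_zero, Finset.sum_empty]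
    refine (tendsto_const_nhds (x := (0 : ℝ))).congr fun X => ?_
    unfold prp cnt
    have h1 : {D : 𝓞 K | Algebra.norm ℤ D ≤ X ∧ A D ∧ (SelK (D : K)).ncard ≤ 3 ^ 0} = ∅ := by
      rw [Set.eq_empty_iff_forall_notMem]
      rintro D ⟨-, h2, h3⟩
      obtain ⟨-, -, s, hs, -⟩ := h.one D h2
      rw [hs, pow_zero] at h3
      have h4 : 3 ^ 1 ≤ 3 ^ (s + 1) := Nat.pow_le_pow_right (by norm_num) (by omega)
      omega
    rw [h1, Set.ncard_empty, Nat.cast_zero, zero_div]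
  | succ r ih =>
    rw [Finset.sum_range_succ]
    refine (ih.add (h.law r)).congr fun X => ?_
    have h1 : prp A (fun D : 𝓞 K => (SelK (D : K)).ncard ≤ 3 ^ (r + 1)) X =
        prp A (fun D : 𝓞 K => (SelK (D : K)).ncard ≤ 3 ^ r ∨ (SelK (D : K)).ncard = 3 ^ (r + 1)) X := by
      refine prp_congr (fun D hD => ?_) X
      obtain ⟨-, -, s, hs, -⟩ := h.one D hD
      rw [hs, Nat.pow_le_pow_iff_right (by norm_num), Nat.pow_le_pow_iff_right (by norm_num),
        Nat.pow_right_inj (by norm_num)]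
      omega
    rw [h1, prp_add]
    intro D hD h2 h3
    rw [h3] at h2
    have h4 : 3 ^ r < 3 ^ (r + 1) := Nat.pow_lt_pow_right (by norm_num) (by omega)
    omega

theorem ev_pos (h : LawK A) : ∀ᶠ X : ℕ in atTop, (0 : ℝ) < (cnt A X : ℝ) := by
  obtain ⟨c, hc, X₀, h⟩ := h.low
  filter_upwards [eventually_ge_atTop X₀, eventually_ge_atTop 1] with X h1 h2
  have h3 := h X h1
  have h4 : (1 : ℝ) ≤ X := by exact_mod_cast h2
  exact lt_of_lt_of_le (by positivity) h3

/-- many `D` with small groups -/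
theorem small_of (h : LawK A)
    (P : 𝓞 K → Prop) (r : ℕ) (hP : ∀ D : 𝓞 K, A D → (SelK (D : K)).ncard ≤ 3 ^ r → P D)
    (ε : ℝ) (hε : 0 < ε) :
    ∀ᶠ X : ℕ in atTop, ∑ i ∈ Finset.range r, cr i - ε ≤ prp A P X := by
  have h1 := (cumT h r).eventually (lt_mem_nhds (show ∑ i ∈ Finset.range r, cr i - ε <
    ∑ i ∈ Finset.range r, cr i by linarith))
  filter_upwards [h1] with X hX
  exact hX.le.trans (prp_mono hP X)

/-! ### the numbers -/

theorem cr_succ (r : ℕ) : cr (r + 1) = cr r / ((3 : ℝ) ^ (r + 1) - 1) := by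
  unfold Pool.Agent.Y703.XL.cr
  rw [Finset.prod_range_succ, div_div]

theorem cr_half (r : ℕ) : cr (r + 1) ≤ cr r * (1 / 2) := by
  have h0 := prob_facts.1 r
  rw [cr_succ, div_eq_mul_inv, one_div]
  have h1 : (3 : ℝ) ^ 1 ≤ 3 ^ (r + 1) := pow_le_pow_right₀ (by norm_num) (by omega)
  have h2 : ((3 : ℝ) ^ (r + 1) - 1)⁻¹ ≤ 2⁻¹ := inv_anti₀ (by norm_num) (by linarith)
  exact mul_le_mul_of_nonneg_left h2 h0.le

theorem cr_geo (r i : ℕ) : cr (i + r) ≤ cr r * (1 / 2) ^ i := by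
  induction i with
  | zero => rw [zero_add, pow_zero, mul_one]
  | succ i ih =>
    have e : i + 1 + r = (i + r) + 1 := by ring
    rw [e, pow_succ, ← mul_assoc]
    exact (cr_half _).trans (mul_le_mul_of_nonneg_right ih (by norm_num))

theorem tail_le (r : ℕ) : 1 - ∑ i ∈ Finset.range r, cr i ≤ 2 * cr r := by
  have hs := prob_facts.2.2.2
  have h1 := hs.summable.sum_add_tsum_nat_add r
  rw [hs.tsum_eq] at h1
  have h2 : ∑' i, cr (i + r) ≤ ∑' i : ℕ, cr r * (1 / 2) ^ i := by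
    refine Summable.tsum_le_tsum (cr_geo r) ((summable_nat_add_iff r).2 hs.summable) ?_
    exact (summable_geometric_of_lt_one (by norm_num) (by norm_num)).mul_left _
  rw [tsum_mul_left, tsum_geometric_of_lt_one (by norm_num) (by norm_num)] at h2
  norm_num at h2
  linarith

/-- the limit of the averages of the truncated dimensions -/
theorem gsum (B : ℕ) : ∑ j ∈ Finset.range B, (1 - ∑ i ∈ Finset.range (j + 1), cr i) < 0.409 := by
  obtain ⟨g, hg⟩ : ∃ g : ℕ → ℝ, ∀ j, g j = 1 - ∑ i ∈ Finset.range (j + 1), cr i := ⟨_, fun j => rfl⟩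
  simp only [← hg]
  have hg0 : ∀ j, 0 ≤ g j := by
    intro j
    rw [hg]
    have := sum_le_hasSum (Finset.range (j + 1)) (fun i _ => (prob_facts.1 i).le) prob_facts.2.2.2
    linarith
  have h1 : ∑ j ∈ Finset.range B, g j ≤ ∑ j ∈ Finset.range (B + 1 + 1), g j :=
    Finset.sum_le_sum_of_subset_of_nonneg (Finset.range_mono (by omega)) fun _ _ _ => hg0 _
  refine lt_of_le_of_lt h1 ?_
  rw [Finset.sum_range_succ', Finset.sum_range_succ']
  have h2 : ∀ k, g (k + 1 + 1) ≤ 2 * cr 3 * (1 / 2) ^ k := by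
    intro k
    rw [hg]
    have e : k + 1 + 1 + 1 = k + 3 := rfl
    rw [e]
    refine (tail_le (k + 3)).trans ?_
    have h3 := cr_geo 3 k
    linarith
  have h3 : ∑ k ∈ Finset.range B, g (k + 1 + 1) ≤ 4 * cr 3 := by
    refine (Finset.sum_le_sum fun k _ => h2 k).trans ?_
    rw [← Finset.mul_sum]
    have h4 : ∑ k ∈ Finset.range B, (1 / 2 : ℝ) ^ k ≤ 2 := by
      have := Summable.sum_le_tsum (Finset.range B) (fun i _ => by positivity)
        (summable_geometric_of_lt_one (r := (1 / 2 : ℝ)) (by norm_num) (by norm_num))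
      rw [tsum_geometric_of_lt_one (by norm_num) (by norm_num)] at this
      norm_num at this ⊢
      linarith
    have h5 := (prob_facts.1 3).le
    nlinarith
  have h4 := cr_succ 0
  have h5 := cr_succ 1
  have h6 := cr_succ 2
  norm_num at h4 h5 h6
  have h7 : g (0 + 1) = 1 - (cr 0 + cr 1) := by
    rw [hg, Finset.sum_range_succ, Finset.sum_range_succ, Finset.range_zero, Finset.sum_empty,
      zero_add]
  have h8 : g 0 = 1 - cr 0 := by
    rw [hg, Finset.sum_range_succ, Finset.range_zero, Finset.sum_empty, zero_add]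
  have h9 := prob_facts.2.1
  have h10 := prob_facts.2.2.1
  rw [h7, h8]
  rw [h4] at h5 ⊢
  rw [h5] at h6
  rw [h6] at h3
  linarith

/-! ### the averages -/

/-- **the average of the truncated ranks** -/
theorem trunc (h : LawK A) (B : ℕ) :
    ∀ᶠ X : ℕ in atTop, ∑ᶠ D ∈ {D : 𝓞 K | Algebra.norm ℤ D ≤ X ∧ A D},
      ((min (Module.finrank ℤ (ED (D : K)).toAffine.Point) B : ℕ) : ℝ) ≤
      0.818 * (cnt A X : ℝ) := by
  have hT : Tendsto (fun X : ℕ => ∑ j ∈ Finset.range B,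
      (1 - prp A (fun D : 𝓞 K => (SelK (D : K)).ncard ≤ 3 ^ (j + 1)) X)) atTop
      (nhds (∑ j ∈ Finset.range B, (1 - ∑ i ∈ Finset.range (j + 1), cr i))) :=
    tendsto_finsetSum _ fun j _ => (cumT h (j + 1)).const_sub 1
  filter_upwards [hT.eventually (gt_mem_nhds (gsum B)), ev_pos h] with X hX hpos
  change ∑ᶠ D ∈ {D : 𝓞 K | Algebra.norm ℤ D ≤ X ∧ A D},
      ((min (Module.finrank ℤ (ED (D : K)).toAffine.Point) B : ℕ) : ℝ) ≤
      0.818 * (cnt A X : ℝ)
  have hfin : {D : 𝓞 K | Algebra.norm ℤ D ≤ X ∧ A D}.Finite :=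
    (fin_K K X).subset fun D hD => hD.1
  obtain ⟨F, hF⟩ : ∃ F : Finset (𝓞 K), (F : Set (𝓞 K)) =
      {D : 𝓞 K | Algebra.norm ℤ D ≤ X ∧ A D} := ⟨hfin.toFinset, hfin.coe_toFinset⟩
  have hFm : ∀ D, D ∈ F ↔ Algebra.norm ℤ D ≤ X ∧ A D := by
    intro D
    rw [← Finset.mem_coe, hF]
    rfl
  have hN : ((F.card : ℕ) : ℝ) = (cnt A X : ℝ) := by
    unfold cnt
    rw [← hF, Set.ncard_coe_finset]
  rw [← hF, finsum_mem_coe_finset, ← hN]
  have h1 : ∀ D ∈ F, ((min (Module.finrank ℤ (ED (D : K)).toAffine.Point) B : ℕ) : ℝ) ≤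
      ∑ j ∈ Finset.range B, 2 * (if (SelK (D : K)).ncard ≤ 3 ^ (j + 1) then 0 else 1 : ℝ) := by
    intro D hD
    obtain ⟨-, -, r, hr, hrk⟩ := h.one D ((hFm D).1 hD).2
    have h2 : ∀ j, (if (SelK (D : K)).ncard ≤ 3 ^ (j + 1) then 0 else 1 : ℝ) =
        if j < r then 1 else 0 := by
      intro j
      have h0 : (SelK (D : K)).ncard ≤ 3 ^ (j + 1) ↔ ¬ j < r := by
        rw [hr, Nat.pow_le_pow_iff_right (by norm_num)]
        omega
      by_cases h : j < r
      · rw [if_pos h, if_neg fun h5 => h0.1 h5 h]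
      · rw [if_neg h, if_pos (h0.2 h)]
    simp only [h2]
    rw [← Finset.mul_sum, Finset.sum_boole]
    have h3 : ((Finset.range B).filter fun j => j < r).card = min B r := by
      have e : (Finset.range B).filter (fun j => j < r) = Finset.range (min B r) := by
        ext j
        rw [Finset.mem_filter, Finset.mem_range, Finset.mem_range, lt_min_iff]
      rw [e, Finset.card_range]
    rw [h3]
    have h4 : min (Module.finrank ℤ (ED (D : K)).toAffine.Point) B ≤ 2 * min B r := by omega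
    exact_mod_cast h4
  have h2 : ∀ j, prp A (fun D : 𝓞 K => (SelK (D : K)).ncard ≤ 3 ^ (j + 1)) X * (F.card : ℝ) =
      ((F.filter fun D : 𝓞 K => (SelK (D : K)).ncard ≤ 3 ^ (j + 1)).card : ℝ) := by
    intro j
    unfold prp
    rw [hN, div_mul_cancel₀ _ hpos.ne']
    unfold cnt
    rw [← Set.ncard_coe_finset]
    congr 2
    ext D
    rw [Finset.mem_coe, Finset.mem_filter, hFm]
    exact ⟨fun h => ⟨⟨h.1, h.2.1⟩, h.2.2⟩, fun h => ⟨h.1.1, h.1.2, h.2⟩⟩
  have h3 : ∀ j, ∑ D ∈ F, (if (SelK (D : K)).ncard ≤ 3 ^ (j + 1) then 0 else 1 : ℝ) =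
      (1 - prp A (fun D : 𝓞 K => (SelK (D : K)).ncard ≤ 3 ^ (j + 1)) X) * (F.card : ℝ) := by
    intro j
    rw [sub_mul, one_mul, h2]
    have h4 : ∀ D ∈ F, (if (SelK (D : K)).ncard ≤ 3 ^ (j + 1) then 0 else 1 : ℝ) =
        1 - if (SelK (D : K)).ncard ≤ 3 ^ (j + 1) then 1 else 0 := by
      intro D _
      split_ifs
      · norm_num
      · norm_num
    rw [Finset.sum_congr rfl h4, Finset.sum_sub_distrib, Finset.sum_const, nsmul_eq_mul, mul_one,
      Finset.sum_boole]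
  have hFp : (0 : ℝ) < (F.card : ℝ) := by rw [hN]; exact hpos
  calc ∑ D ∈ F, ((min (Module.finrank ℤ (ED (D : K)).toAffine.Point) B : ℕ) : ℝ)
      ≤ ∑ D ∈ F, ∑ j ∈ Finset.range B,
        2 * (if (SelK (D : K)).ncard ≤ 3 ^ (j + 1) then 0 else 1 : ℝ) := Finset.sum_le_sum h1
    _ = ∑ j ∈ Finset.range B, 2 *
        ((1 - prp A (fun D : 𝓞 K => (SelK (D : K)).ncard ≤ 3 ^ (j + 1)) X) * (F.card : ℝ)) := by
        rw [Finset.sum_comm]
        refine Finset.sum_congr rfl fun j _ => ?_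
        rw [← Finset.mul_sum, h3]
    _ = 2 * (∑ j ∈ Finset.range B,
        (1 - prp A (fun D : 𝓞 K => (SelK (D : K)).ncard ≤ 3 ^ (j + 1)) X)) * (F.card : ℝ) := by
        rw [← Finset.mul_sum, ← Finset.sum_mul, mul_assoc]
    _ ≤ 0.818 * (F.card : ℝ) := by
        have : 2 * (∑ j ∈ Finset.range B,
          (1 - prp A (fun D : 𝓞 K => (SelK (D : K)).ncard ≤ 3 ^ (j + 1)) X)) ≤ 0.818 := by
            linarith
        exact mul_le_mul_of_nonneg_right this hFp.le

/-- the facts for one curve -/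
theorem one_all (h : LawK A) {a : 𝓞 K} (ha : A a) :
    Even (Module.finrank ℤ (ED (a : K)).toAffine.Point) ∧
    ∃ r s : ℕ, (SelK (a : K)).ncard = 3 ^ (r + 1) ∧
      Nat.card (Sel3 (a : K)) = 3 ^ (s + 1) ∧ r ≤ s ∧ s ≤ 2 * r ∧
      Module.finrank ℤ (ED (a : K)).toAffine.Point ≤ 2 * r := by
  obtain ⟨ω, hω⟩ := ex_root K
  obtain ⟨h0, hc, r, hr, hrk⟩ := h.one a ha
  refine ⟨even_pt h0 hω, ?_⟩
  have key : (SelK (a : K)).ncard = 3 * (killed ω (a : K)).ncard :=
    Pool.Agent.Y703.XL.Inf.sel_card h0 hω hc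
  have hk : (killed ω (a : K)).ncard = 3 ^ r := by
    rw [hr, pow_succ'] at key
    exact (Nat.eq_of_mul_eq_mul_left (by norm_num) key).symm
  obtain ⟨s, hs, h1, h2⟩ := sel3_facts h0 hω hc hk
  exact ⟨r, s, hr, hs, h1, h2, hrk⟩

/-- the `3`-Selmer group has order three -/
theorem sel3_law (h : LawK A) :
    Tendsto (prp A (fun D : 𝓞 K => Nat.card (Sel3 (D : K)) = 3)) atTop (nhds (cr 0)) := by
  refine (h.law 0).congr fun X => ?_
  refine prp_congr (fun D hD => ?_) X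
  obtain ⟨-, r, s, h1, h2, h3, h4, -⟩ := one_all h hD
  rw [h1, h2, zero_add, pow_one]
  constructor
  · intro h
    have h5 : r = 0 := by
      by_contra hne
      have : 3 ^ 2 ≤ 3 ^ (r + 1) := Nat.pow_le_pow_right (by norm_num) (by omega)
      omega
    have h6 : s = 0 := by omega
    rw [h6, zero_add, pow_one]
  · intro h
    have h5 : s = 0 := by
      by_contra hne
      have : 3 ^ 2 ≤ 3 ^ (s + 1) := Nat.pow_le_pow_right (by norm_num) (by omega)
      omega
    have h6 : r = 0 := by omega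
    rw [h6, zero_add, pow_one]

/-- the numbers for the ranks -/
theorem ranks_num (h : LawK A) :
    ∀ᶠ X : ℕ in atTop,
      0.639 ≤ prp A (fun D : 𝓞 K => Module.finrank ℤ (ED (D : K)).toAffine.Point = 0) X ∧
      0.9585 ≤ prp A (fun D : 𝓞 K => Module.finrank ℤ (ED (D : K)).toAffine.Point = 0 ∨
        Module.finrank ℤ (ED (D : K)).toAffine.Point = 2) X ∧
      0.998 ≤ prp A (fun D : 𝓞 K => Module.finrank ℤ (ED (D : K)).toAffine.Point ≤ 4) X := by
  have h2 : ∀ (r : ℕ) (ε : ℝ), 0 < ε → ∀ᶠ X : ℕ in atTop, ∑ i ∈ Finset.range (r + 1), cr i - ε ≤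
      prp A (fun D : 𝓞 K => Module.finrank ℤ (ED (D : K)).toAffine.Point ≤ 2 * r) X := by
    intro r ε hε
    refine small_of h _ (r + 1) (fun D hD h' => ?_) ε hε
    obtain ⟨-, -, s, hs, hrk⟩ := h.one D hD
    rw [hs, Nat.pow_le_pow_iff_right (by norm_num)] at h'
    show Module.finrank ℤ (ED (D : K)).toAffine.Point ≤ 2 * r
    omega
  have c1 := cr_succ 0
  have c2 := cr_succ 1
  norm_num at c1 c2
  have h3 := prob_facts.2.1
  have s1 : ∑ i ∈ Finset.range (0 + 1), cr i = cr 0 := by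
    rw [Finset.sum_range_succ, Finset.range_zero, Finset.sum_empty, zero_add]
  have s2 : ∑ i ∈ Finset.range (1 + 1), cr i = cr 0 + cr 1 := by
    rw [Finset.sum_range_succ, s1]
  have s3 : ∑ i ∈ Finset.range (2 + 1), cr i = cr 0 + cr 1 + cr 2 := by
    rw [Finset.sum_range_succ, s2]
  have k1 := h2 0 (cr 0 - 0.639) (by linarith)
  have k2 := h2 1 (cr 0 + cr 1 - 0.9585) (by linarith)
  have k3 := h2 2 (cr 0 + cr 1 + cr 2 - 0.998) (by linarith)
  filter_upwards [k1, k2, k3] with X hX1 hX2 hX3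
  rw [s1] at hX1
  rw [s2] at hX2
  rw [s3] at hX3
  have m1 := prp_mono (K := K) (A := A)
    (P := fun D : 𝓞 K => Module.finrank ℤ (ED (D : K)).toAffine.Point ≤ 2 * 0)
    (Q := fun D : 𝓞 K => Module.finrank ℤ (ED (D : K)).toAffine.Point = 0)
    (fun D hD h => by omega) X
  have m2 := prp_mono (K := K) (A := A)
    (P := fun D : 𝓞 K => Module.finrank ℤ (ED (D : K)).toAffine.Point ≤ 2 * 1)
    (Q := fun D : 𝓞 K => Module.finrank ℤ (ED (D : K)).toAffine.Point = 0 ∨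
        Module.finrank ℤ (ED (D : K)).toAffine.Point = 2)
    (fun D hD h' => by
      obtain ⟨m, hm⟩ := (one_all h hD).1
      omega) X
  have m3 := prp_mono (K := K) (A := A)
    (P := fun D : 𝓞 K => Module.finrank ℤ (ED (D : K)).toAffine.Point ≤ 2 * 2)
    (Q := fun D : 𝓞 K => Module.finrank ℤ (ED (D : K)).toAffine.Point ≤ 4)
    (fun D hD h => by omega) X
  exact ⟨by linarith, by linarith, by linarith⟩

/-! ### unions -/

theorem wavg {p q n m : ℕ → ℝ} {L : ℝ} (hn : ∀ᶠ X in atTop, 0 < n X) (hm : ∀ᶠ X in atTop, 0 < m X)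
    (hp : Tendsto (fun X => p X / n X) atTop (nhds L))
    (hq : Tendsto (fun X => q X / m X) atTop (nhds L)) :
    Tendsto (fun X => (p X + q X) / (n X + m X)) atTop (nhds L) := by
  rw [Metric.tendsto_atTop'] at hp hq ⊢
  intro ε hε
  obtain ⟨N1, h1⟩ := hp ε hε
  obtain ⟨N2, h2⟩ := hq ε hε
  obtain ⟨N3, h3⟩ := eventually_atTop.1 (hn.and hm)
  refine ⟨max (max N1 N2) N3, fun X hX => ?_⟩
  have a1 := h1 X (lt_of_le_of_lt ((le_max_left _ _).trans (le_max_left _ _)) hX)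
  have a2 := h2 X (lt_of_le_of_lt ((le_max_right _ _).trans (le_max_left _ _)) hX)
  obtain ⟨a3, a4⟩ := h3 X ((le_max_right _ _).trans hX.le)
  rw [Real.dist_eq] at a1 a2 ⊢
  have e1 : |p X - L * n X| < ε * n X := by
    have : p X - L * n X = (p X / n X - L) * n X := by field_simp
    rw [this, abs_mul, abs_of_pos a3]
    exact mul_lt_mul_of_pos_right a1 a3
  have e2 : |q X - L * m X| < ε * m X := by
    have : q X - L * m X = (q X / m X - L) * m X := by field_simp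
    rw [this, abs_mul, abs_of_pos a4]
    exact mul_lt_mul_of_pos_right a2 a4
  have e3 : (p X + q X) / (n X + m X) - L = ((p X - L * n X) + (q X - L * m X)) / (n X + m X) := by
    have : n X + m X ≠ 0 := (add_pos a3 a4).ne'
    field_simp
    ring
  rw [e3, abs_div, abs_of_pos (add_pos a3 a4), div_lt_iff₀ (add_pos a3 a4)]
  calc |(p X - L * n X) + (q X - L * m X)| ≤ |p X - L * n X| + |q X - L * m X| := abs_add_le _ _
    _ < ε * n X + ε * m X := add_lt_add e1 e2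
    _ = ε * (n X + m X) := by ring

/-- the law for a union -/
theorem LawK.or {B : 𝓞 K → Prop} (hA : LawK A) (hB : LawK B) (hd : ∀ a, A a → ¬ B a) :
    LawK (fun a => A a ∨ B a) := by
  refine ⟨fun a ha => ha.elim (hA.one a) (hB.one a), ?_, fun r => ?_⟩
  · obtain ⟨c, hc, X₀, h⟩ := hA.low
    refine ⟨c, hc, X₀, fun X hX => (h X hX).trans ?_⟩
    exact_mod_cast cnt_mono (fun a ha => Or.inl ha) X
  · refine (wavg (ev_pos hA) (ev_pos hB) (hA.law r) (hB.law r)).congr fun X => ?_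
    unfold prp
    have h1 : cnt (fun a => (A a ∨ B a) ∧ (SelK (a : K)).ncard = 3 ^ (r + 1)) X =
        cnt (fun a => A a ∧ (SelK (a : K)).ncard = 3 ^ (r + 1)) X +
        cnt (fun a => B a ∧ (SelK (a : K)).ncard = 3 ^ (r + 1)) X := by
      rw [← cnt_or (fun a ha hb => hd a ha.1 hb.1)]
      congr 1
      ext a
      exact or_and_right
    rw [h1, cnt_or hd]
    push_cast
    rfl

/-- the law for the union of a finite family -/
theorem LawK.union {ι : Type} (F : ι → 𝓞 K → Prop) (hd : ∀ i j, i ≠ j → ∀ a, F i a → ¬ F j a)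
    (hL : ∀ i, LawK (F i)) (T : Finset ι) (hT : T.Nonempty) : LawK (fun a => ∃ i ∈ T, F i a) := by
  induction hT using Finset.Nonempty.cons_induction with
  | singleton i =>
    have h1 : (fun a : 𝓞 K => ∃ i' ∈ ({i} : Finset ι), F i' a) = F i := by
      ext a
      simp
    rw [h1]
    exact hL i
  | cons i T hi hT ih =>
    have h1 : (fun a : 𝓞 K => ∃ i' ∈ Finset.cons i T hi, F i' a) =
        fun a => F i a ∨ ∃ i' ∈ T, F i' a := by
      ext a
      simp
    rw [h1]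
    refine (hL i).or ih fun a ha => ?_
    rintro ⟨i', hi', h2⟩
    exact hd i i' (fun h => hi (h ▸ hi')) a ha h2

end

end Pool.Agent.E8helper20.CTM
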