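import Pool.Agent.E8helper20.CTM.Law
import Pool.Agent.E8helper20.CTM.Gen

/-!
# Project CTM: the classes over `K`
-/

set_option autoImplicit false
set_option linter.unusedVariables false
set_option linter.unusedSectionVars false

open scoped Classical

namespace Pool.Agent.E8helper20.CTM

open NumberField Finset Filter
open Pool.Agent.Y692.QS (Ei w nr nr_mul)
open Pool.Agent.Y715.T.Gi (lam prime_lam)
open Pool.Agent.Y703.CT
open Pool.Agent.Y703.XL (cr)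
open Pool.Agent.Y696.CTK (ED)
open Pool.Agent.XL6 (SelK)
open Pool.Agent.E8helper20.CTK3 (ClsC3 ClsK3 clsK3_iff)

/-! ### over the Eisenstein integers -/

/-- the multiplier -/
def mE (t : Fin 3 × Fin 3) : Ei := (if t.1 = 0 then 1 else if t.1 = 1 then lam else 3) * w ^ (t.2 : ℕ)

theorem lam_dvd_three : lam ∣ (3 : Ei) := ⟨-lam, by
  have := Pool.Agent.Y715.T.Gi.lam_sq
  linear_combination this⟩

theorem unit_w (b : ℕ) : IsUnit ((w : Ei) ^ b) := by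
  have hw : (w : Ei) ^ 3 = 1 := by decide
  exact (IsUnit.of_mul_eq_one (w ^ 2) (by rw [← pow_succ', hw])).pow b

theorem not_lam {z : Ei} (hz : (3 : Ei) ∣ z - 1) : ¬ lam ∣ z := by
  intro h
  have h1 : lam ∣ z - 1 := lam_dvd_three.trans hz
  have h2 : lam ∣ 1 := by
    have := dvd_sub h h1
    rwa [sub_sub_cancel] at this
  exact prime_lam.not_isUnit (isUnit_of_dvd_one h2)

theorem lam_w {z : Ei} (b : ℕ) (h : lam ∣ w ^ b * z) : lam ∣ z :=
  ((unit_w b).dvd_mul_left).1 h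

theorem mE_ne (t : Fin 3 × Fin 3) : mE t ≠ 0 := by
  revert t
  decide

theorem mE_not_cube (t : Fin 3 × Fin 3) {y z : Ei} (hz : ClsC3 z) : y ^ 3 ≠ mE t * z := by
  intro h
  have hl := not_lam hz.1
  have hsq := Pool.Agent.Y715.T.Gi.lam_sq
  obtain ⟨k, b⟩ := t
  have hl0 : (lam : Ei) ≠ 0 := prime_lam.ne_zero
  fin_cases k
  · simp only [mE, Fin.zero_eta, if_true, one_mul] at h
    have h1 : y ^ 3 ∣ z := ((unit_w (b : ℕ)).dvd_mul_left).1 (Dvd.intro_left _ (by rw [h, one_mul]))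
    have h2 : IsUnit y := hz.2.1.2 y h1
    have h3 : IsUnit (w ^ (b : ℕ) * z) := by rw [← h]; exact h2.pow 3
    have h4 : IsUnit z := isUnit_of_mul_isUnit_right h3
    exact hz.2.2 (Pool.Agent.Y699.E.eq_one_of_prm hz.1 h4)
  · have e : mE (⟨1, by decide⟩, b) = lam * w ^ (b : ℕ) := rfl
    change y ^ 3 = mE (⟨1, by decide⟩, b) * z at h
    rw [e] at h
    have h1 : lam ∣ y := prime_lam.dvd_of_dvd_pow (by rw [h, mul_assoc]; exact dvd_mul_right _ _)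
    obtain ⟨y', rfl⟩ := h1
    have h2 : lam * (lam * (lam * y' ^ 3)) = lam * (w ^ (b : ℕ) * z) := by
      linear_combination h
    have h3 := mul_left_cancel₀ hl0 h2
    exact hl (lam_w (b : ℕ) (by rw [← h3]; exact dvd_mul_right _ _))
  · have e : mE (⟨2, by decide⟩, b) = 3 * w ^ (b : ℕ) := rfl
    change y ^ 3 = mE (⟨2, by decide⟩, b) * z at h
    rw [e] at h
    have h1 : lam ∣ y := prime_lam.dvd_of_dvd_pow (by
      rw [h, mul_assoc]; exact lam_dvd_three.trans (dvd_mul_right _ _))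
    obtain ⟨y', rfl⟩ := h1
    have h2 : lam * (lam * (lam * y' ^ 3)) = lam * (lam * (-(w ^ (b : ℕ) * z))) := by
      linear_combination h + (w ^ (b : ℕ) * z) * hsq
    have h3 := mul_left_cancel₀ hl0 (mul_left_cancel₀ hl0 h2)
    exact hl (lam_w (b : ℕ) ((dvd_neg).1 (by rw [← h3]; exact dvd_mul_right _ _)))

theorem w_sub (b b' : Fin 3) (h : (3 : Ei) ∣ w ^ (b : ℕ) - w ^ (b' : ℕ)) : b = b' := by
  obtain ⟨q, hq⟩ := h
  have h1 : nr (w ^ (b : ℕ) - w ^ (b' : ℕ)) = 9 * nr q := by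
    rw [hq, nr_mul]
    congr 1
  have h2 : (9 : ℤ) ∣ nr (w ^ (b : ℕ) - w ^ (b' : ℕ)) := ⟨_, h1⟩
  clear h1 hq
  revert b b'
  decide

theorem mE_disj {t t' : Fin 3 × Fin 3} {z z' : Ei} (hz : (3 : Ei) ∣ z - 1) (hz' : (3 : Ei) ∣ z' - 1)
    (h : mE t * z = mE t' * z') : t = t' := by
  have hl0 : (lam : Ei) ≠ 0 := prime_lam.ne_zero
  have hsq := Pool.Agent.Y715.T.Gi.lam_sq
  have key : ∀ {s s' : Fin 3 × Fin 3} {y y' : Ei}, (3 : Ei) ∣ y - 1 → (3 : Ei) ∣ y' - 1 →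
      mE s * y = mE s' * y' → ¬ s.1 < s'.1 := by
    rintro ⟨k, b⟩ ⟨k', b'⟩ y y' hy hy' h hlt
    apply not_lam hy
    apply lam_w (b : ℕ)
    simp only [mE] at h
    simp only at hlt
    fin_cases k <;> fin_cases k' <;> simp at h hlt
    · exact ⟨w ^ (b' : ℕ) * y', by linear_combination h⟩
    · exact lam_dvd_three.trans ⟨w ^ (b' : ℕ) * y', by linear_combination h⟩
    · refine ⟨-(w ^ (b' : ℕ) * y'), mul_left_cancel₀ hl0 ?_⟩
      linear_combination h + (w ^ (b' : ℕ) * y') * hsq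
  have h1 := key hz hz' h
  have h2 := key hz' hz h.symm
  have h3 : t.1 = t'.1 := le_antisymm (not_lt.1 h2) (not_lt.1 h1)
  have h4 : w ^ (t.2 : ℕ) * z = w ^ (t'.2 : ℕ) * z' := by
    unfold mE at h
    rw [h3, mul_assoc, mul_assoc] at h
    refine mul_left_cancel₀ ?_ h
    split_ifs
    · exact one_ne_zero
    · exact hl0
    · decide
  have h5 : (3 : Ei) ∣ w ^ (t.2 : ℕ) - w ^ (t'.2 : ℕ) := by
    obtain ⟨q, hq⟩ := hz
    obtain ⟨q', hq'⟩ := hz'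
    refine ⟨w ^ (t'.2 : ℕ) * q' - w ^ (t.2 : ℕ) * q, ?_⟩
    linear_combination h4 - w ^ (t.2 : ℕ) * hq + w ^ (t'.2 : ℕ) * hq'
  exact Prod.ext h3 (w_sub _ _ h5)

section
variable {K : Type} [Field K] [NumberField K]

/-- the class `t` over `K` -/
def InF (ω : 𝓞 K) (t : Fin 3 × Fin 3) (a : 𝓞 K) : Prop :=
  ∃ D : 𝓞 K, a = (if t.1 = 0 then 1 else if t.1 = 1 then 1 + 2 * ω else 3) * ω ^ (t.2 : ℕ) * D ∧
    (3 : 𝓞 K) ∣ D - 1 ∧ (∀ x : 𝓞 K, x ^ 3 ∣ D → IsUnit x) ∧ D ≠ 1 ∧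
    (t = (0, 0) → ¬ (9 : ℤ) ∣ Algebra.norm ℤ D - 1)

/-- the class over `Ei` -/
def ClE (t : Fin 3 × Fin 3) (z : Ei) : Prop := ClsC3 z ∧ (t = (0, 0) → ¬ (9 : ℤ) ∣ nr z - 1)

theorem lam_eq : (lam : Ei) = 1 + 2 * w := by decide

theorem map_mE (j : Ei ≃+* 𝓞 K) (t : Fin 3 × Fin 3) :
    j (mE t) = (if t.1 = 0 then 1 else if t.1 = 1 then 1 + 2 * j w else 3) * j w ^ (t.2 : ℕ) := by
  unfold mE
  rw [map_mul, map_pow]
  congr 1
  split_ifs
  · rw [map_one]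
  · rw [lam_eq, map_add, map_mul, map_one, map_ofNat]
  · rw [map_ofNat]

theorem inF_iff (j : Ei ≃+* 𝓞 K) (hj : ∀ z : Ei, Algebra.norm ℤ (j z) = nr z)
    (t : Fin 3 × Fin 3) (a : 𝓞 K) : InF (j w) t a ↔ ∃ z, ClE t z ∧ a = j (mE t * z) := by
  unfold InF ClE
  rw [← map_mE j t]
  constructor
  · rintro ⟨D, h1, h2, h3, h4, h5⟩
    obtain ⟨z, rfl⟩ := j.surjective D
    refine ⟨z, ⟨(clsK3_iff j z).1 ⟨h2, h3, h4⟩, fun ht => ?_⟩, ?_⟩
    · rw [← hj]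
      exact h5 ht
    · rw [map_mul]
      exact h1
  · rintro ⟨z, ⟨h1, h2⟩, rfl⟩
    obtain ⟨h3, h4, h5⟩ := (clsK3_iff j z).2 h1
    refine ⟨j z, by rw [map_mul], h3, h4, h5, fun ht => ?_⟩
    rw [hj]
    exact h2 ht

theorem inF_disj (j : Ei ≃+* 𝓞 K) (hj : ∀ z : Ei, Algebra.norm ℤ (j z) = nr z)
    (t t' : Fin 3 × Fin 3) (h : t ≠ t') (a : 𝓞 K) (ha : InF (j w) t a) : ¬ InF (j w) t' a := by
  intro ha'
  obtain ⟨z, h1, rfl⟩ := (inF_iff j hj t a).1 ha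
  obtain ⟨z', h1', h2'⟩ := (inF_iff j hj t' _).1 ha'
  exact h (mE_disj h1.1.1 h1'.1.1 (j.injective h2'))

theorem cnt_eq (j : Ei ≃+* 𝓞 K) (hj : ∀ z : Ei, Algebra.norm ℤ (j z) = nr z)
    (t : Fin 3 × Fin 3) (m : ℕ) (hm : nr (mE t) = m) (hm0 : 0 < m) (P : 𝓞 K → Prop) (X : ℕ) :
    cnt (fun a => InF (j w) t a ∧ P a) X =
      {z : Ei | nr z ≤ ((X / m : ℕ) : ℤ) ∧ ClE t z ∧ P (j (mE t * z))}.ncard := by
  unfold cnt
  have hinj : Function.Injective fun z : Ei => j (mE t * z) := fun a b h =>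
    mul_left_cancel₀ (mE_ne t) (j.injective h)
  rw [← Set.ncard_image_of_injective _ hinj]
  congr 1
  ext a
  simp only [Set.mem_ofPred_eq, Set.mem_image]
  have hnr : ∀ z : Ei, Algebra.norm ℤ (j (mE t * z)) ≤ (X : ℤ) ↔ nr z ≤ ((X / m : ℕ) : ℤ) := by
    intro z
    rw [hj, nr_mul, hm, Int.natCast_div X m, Int.le_ediv_iff_mul_le (by exact_mod_cast hm0), mul_comm]
  constructor
  · rintro ⟨h1, h2, h3⟩
    obtain ⟨z, h4, rfl⟩ := (inF_iff j hj t a).1 h2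
    exact ⟨z, ⟨(hnr z).1 h1, h4, h3⟩, rfl⟩
  · rintro ⟨z, ⟨h1, h2, h3⟩, rfl⟩
    exact ⟨(hnr z).2 h1, (inF_iff j hj t _).2 ⟨z, h2, rfl⟩, h3⟩

/-! ### the law for one class -/

theorem lawE (hTR : S_TRFM) (hKEY : S_KEYM) (hDEN : S_DENM) (hBad : BadM)
    (hP : Pool.Agent.E8helper20.CTK3.S_PAIR) (j : Ei ≃+* 𝓞 K)
    (hj : ∀ z : Ei, Algebra.norm ℤ (j z) = nr z) (t : Fin 3 × Fin 3) (ht : t ≠ (0, 0))
    {Nf : Finset Ei → Finset Ei → ℕ} (h : MD (mE t) Nf) (m : ℕ) (hm : nr (mE t) = m) (hm0 : 0 < m) :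
    LawK (InF (j w) t) := by
  have e0 : ∀ z, ClE t z ↔ ClsC3 z := fun z => ⟨fun h => h.1, fun h => ⟨h, fun h' => absurd h' ht⟩⟩
  have e1 : ∀ (P : 𝓞 K → Prop) (X : ℕ), cnt (fun a => InF (j w) t a ∧ P a) X =
      {z : Ei | nr z ≤ ((X / m : ℕ) : ℤ) ∧ ClsC3 z ∧ P (j (mE t * z))}.ncard := by
    intro P X
    rw [cnt_eq j hj t m hm hm0]
    simp only [e0]
  have e2 : ∀ X : ℕ, cnt (InF (j w) t) X =
      {z : Ei | nr z ≤ ((X / m : ℕ) : ℤ) ∧ ClsC3 z}.ncard := by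
    intro X
    have h1 := e1 (fun _ => True) X
    simp only [and_true] at h1
    exact h1
  have hdiv := Nat.tendsto_div_const_atTop hm0.ne'
  refine ⟨fun a ha => ?_, ?_, fun r => ?_⟩
  · obtain ⟨z, hz, rfl⟩ := (inF_iff j hj t a).1 ha
    obtain ⟨r, h1, h2⟩ := one_el hTR hP h K j ((e0 z).1 hz)
    have hnz : z ≠ 0 := Pool.Agent.Y699.E.prm_ne_zero hz.1.1
    refine ⟨?_, fun s hs => ?_, r, h1, h2⟩
    · rw [Ne, RingOfIntegers.coe_eq_zero_iff, map_eq_zero_iff j j.injective]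
      exact mul_ne_zero (mE_ne t) hnz
    · have hint : _root_.IsIntegral ℤ s := by
        apply _root_.IsIntegral.of_pow (n := 3) (by norm_num)
        rw [hs]
        exact RingOfIntegers.isIntegral_coe _
      obtain ⟨s', rfl⟩ : ∃ s' : 𝓞 K, (s' : K) = s := ⟨⟨s, hint⟩, rfl⟩
      obtain ⟨y, rfl⟩ := j.surjective s'
      have h3 : (j y) ^ 3 = j (mE t * z) := by
        apply RingOfIntegers.coe_injective
        rw [map_pow]
        exact hs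
      rw [← map_pow] at h3
      exact mE_not_cube t hz.1 (j.injective h3)
  · obtain ⟨⟨c, hc, X₀, hlow⟩, -⟩ := Pool.Agent.E8helper20.CTK3.den3
    refine ⟨c / (2 * m), by positivity, m * (X₀ + 1), fun X hX => ?_⟩
    rw [e2]
    have h1 : X₀ ≤ X / m := by
      rw [Nat.le_div_iff_mul_le hm0]
      nlinarith
    refine le_trans ?_ (hlow (X / m) h1)
    have h2 : m * (X / m) + X % m = X := Nat.div_add_mod X m
    have h3 : X % m < m := Nat.mod_lt X hm0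
    have h4 : 1 ≤ X / m := by
      rw [Nat.le_div_iff_mul_le hm0]
      nlinarith
    have h5 : X ≤ 2 * m * (X / m) := by nlinarith
    have h6 : (X : ℝ) ≤ 2 * m * ((X / m : ℕ) : ℝ) := by exact_mod_cast h5
    have hm1 : (0 : ℝ) < m := by exact_mod_cast hm0
    rw [div_mul_eq_mul_div, div_le_iff₀ (by positivity)]
    nlinarith
  · have h1 := (law_el hTR hKEY hDEN hBad h K j r).comp hdiv
    refine h1.congr fun X => ?_
    unfold prp
    rw [e1, e2]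
    rfl

end

end Pool.Agent.E8helper20.CTM
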