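import Pool.Agent.E8helper20.CTM.Comp
import Pool.Agent.E8helper20.CTM.StmX

/-!
# Project CTM: the classes over `K`, all the cubic twists
-/

set_option autoImplicit false
set_option linter.unusedVariables false
set_option linter.unusedSectionVars false

open scoped Classical

namespace Pool.Agent.E8helper20.CTM

open NumberField Finset Filter
open Pool.Agent.Y692.QS (Ei w nr nr_mul)
open Pool.Agent.Y715.T.RecG (Pq)
open Pool.Agent.Y715.T.Gi (lam prime_lam)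
open Pool.Agent.Y703.CT
open Pool.Agent.Y703.XL (cr S_LA S_ABS S_LIM)
open Pool.Agent.Y696.CTK (ED)
open Pool.Agent.XL6 (SelK SelH)
open Pool.Agent.E8helper20.CTK3 (el3 ClsC3 ClsK3 clsK3_iff)

/-! ### the multiplier `1` -/

/-- the number of the solutions is divided by three -/
noncomputable def m0 (M S : Finset Ei) : ℕ := n0 M S / 3

theorem m0_iff (hDAT : S_DAT0) {M S : Finset Ei} (hS : ∀ q ∈ S, Pq q) (hM : M ⊆ S)
    (hn : S.Nonempty) (r : ℕ) : n0 M S = 3 ^ (r + 1) ↔ m0 M S = 3 ^ r := by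
  obtain ⟨n, π, e, -, -, h3⟩ := hDAT.2 M S hS hM hn
  obtain ⟨s, hs⟩ := hDAT.1 _ π e
  unfold m0
  rw [h3, hs, pow_succ, Nat.mul_div_cancel _ (by norm_num), pow_succ]
  constructor
  · intro h
    exact Nat.eq_of_mul_eq_mul_right (by norm_num) h
  · intro h
    rw [h]

theorem box_congr {P P' : Finset Ei → Finset Ei → Prop} {c k : ℝ}
    (h : ∀ M S : Finset Ei, (∀ q ∈ S, Pq q) → M ⊆ S → S.Nonempty → (P M S ↔ P' M S))
    (hB : BoxM P c k) : BoxM P' c k := by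
  intro ι _ _ C X κ M S₀ hM hκ hC hH hu hi hd hcard
  have h1 := hB ι C X κ M S₀ hM hκ hC hH hu hi hd hcard
  have hne : Nonempty ι := Fintype.card_pos_iff.1 (by omega)
  have e : ((Fintype.piFinset C).filter fun p => Nd9 S₀ (univ.image p) ∧
      P M (S₀ ∪ univ.image p)) = ((Fintype.piFinset C).filter fun p => Nd9 S₀ (univ.image p) ∧
      P' M (S₀ ∪ univ.image p)) := by
    refine filter_congr fun p hp => and_congr_right fun _ => h M _ ?_ ?_ ?_
    · intro q hq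
      rcases mem_union.1 hq with hq | hq
      · exact hu q hq
      · obtain ⟨i, -, rfl⟩ := mem_image.1 hq
        exact (hi i _ (Fintype.mem_piFinset.1 hp i)).1
    · exact hM.trans subset_union_left
    · obtain ⟨i⟩ := hne
      exact ⟨p i, mem_union_right _ (mem_image_of_mem _ (mem_univ i))⟩
  rw [e] at h1
  exact h1

/-- the multiplier `1` -/
theorem md0 (hREC : S_REC) (hSUP : S_SUPM) (hRAM : S_RAMM) (hLOC : S_LOCM3) (hCUB : S_CUBM3)
    (hFF : S_FF) (hC : S_CUB) (hPT : S_PT) (hSEL : S_SELM0)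
    (hBOX : ∀ r : ℕ, BoxM (fun M S => n0 M S = 3 ^ (r + 1)) (cr r) (3 ^ (r + 1)))
    (hDAT : S_DAT0) : MD 1 m0 := by
  refine ⟨⟨0, one_dvd _⟩, fun r => ⟨3 ^ (r + 1), by positivity,
    box_congr (fun M S hS hM hn => m0_iff hDAT hS hM hn r) (hBOX r)⟩, fun M S hS hM hn => ?_,
    fun M S hS hM hn => ?_⟩
  · obtain ⟨n, π, e, -, -, h3⟩ := hDAT.2 M S hS hM hn
    obtain ⟨s, hs⟩ := hDAT.1 _ π e
    exact ⟨s, (m0_iff hDAT hS hM hn s).1 (h3.trans hs)⟩
  · obtain ⟨n, π, e, h1, h2, h3⟩ := hDAT.2 M S hS hM hn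
    obtain ⟨s, hs⟩ := hDAT.1 _ π e
    refine ⟨n, π, e, h1, h2, fun i₀ hi u a hT => ?_⟩
    rw [one_mul] at hT
    rw [hSEL hREC hSUP hRAM hLOC hCUB hFF hC hPT _ π e h1 i₀ hi u a hT, hs,
      (m0_iff hDAT hS hM hn s).1 (h3.trans hs), pow_succ, mul_comm]

/-! ### the classes -/

section
variable {K : Type} [Field K] [NumberField K]

/-- the class `t` over `K` -/
def InG (ω : 𝓞 K) (t : Fin 3 × Fin 3) (a : 𝓞 K) : Prop :=
  ∃ D : 𝓞 K, a = (if t.1 = 0 then 1 else if t.1 = 1 then 1 + 2 * ω else 3) * ω ^ (t.2 : ℕ) * D ∧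
    (3 : 𝓞 K) ∣ D - 1 ∧ (∀ x : 𝓞 K, x ^ 3 ∣ D → IsUnit x) ∧ D ≠ 1

theorem inG_iff (j : Ei ≃+* 𝓞 K) (hj : ∀ z : Ei, Algebra.norm ℤ (j z) = nr z)
    (t : Fin 3 × Fin 3) (a : 𝓞 K) : InG (j w) t a ↔ ∃ z, ClsC3 z ∧ a = j (mE t * z) := by
  unfold InG
  rw [← map_mE j t]
  constructor
  · rintro ⟨D, h1, h2, h3, h4⟩
    obtain ⟨z, rfl⟩ := j.surjective D
    refine ⟨z, (clsK3_iff j z).1 ⟨h2, h3, h4⟩, ?_⟩
    rw [map_mul]
    exact h1
  · rintro ⟨z, h1, rfl⟩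
    obtain ⟨h3, h4, h5⟩ := (clsK3_iff j z).2 h1
    exact ⟨j z, by rw [map_mul], h3, h4, h5⟩

theorem inG_disj (j : Ei ≃+* 𝓞 K) (hj : ∀ z : Ei, Algebra.norm ℤ (j z) = nr z)
    (t t' : Fin 3 × Fin 3) (h : t ≠ t') (a : 𝓞 K) (ha : InG (j w) t a) : ¬ InG (j w) t' a := by
  intro ha'
  obtain ⟨z, h1, rfl⟩ := (inG_iff j hj t a).1 ha
  obtain ⟨z', h1', h2'⟩ := (inG_iff j hj t' _).1 ha'
  exact h (mE_disj h1.1 h1'.1 (j.injective h2'))

theorem cntG_eq (j : Ei ≃+* 𝓞 K) (hj : ∀ z : Ei, Algebra.norm ℤ (j z) = nr z)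
    (t : Fin 3 × Fin 3) (m : ℕ) (hm : nr (mE t) = m) (hm0 : 0 < m) (P : 𝓞 K → Prop) (X : ℕ) :
    cnt (fun a => InG (j w) t a ∧ P a) X =
      {z : Ei | nr z ≤ ((X / m : ℕ) : ℤ) ∧ ClsC3 z ∧ P (j (mE t * z))}.ncard := by
  unfold cnt
  have hinj : Function.Injective fun z : Ei => j (mE t * z) := fun a b h =>
    mul_left_cancel₀ (mE_ne t) (j.injective h)
  rw [← Set.ncard_image_of_injective _ hinj]
  congr 1
  ext a
  simp only [Set.mem_ofPred_eq, Set.mem_image]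
  have hnr : ∀ z : Ei, Algebra.norm ℤ (j (mE t * z)) ≤ (X : ℤ) ↔ nr z ≤ ((X / m : ℕ) : ℤ) := by
    intro z
    rw [hj, nr_mul, hm, Int.natCast_div X m, Int.le_ediv_iff_mul_le (by exact_mod_cast hm0),
      mul_comm]
  constructor
  · rintro ⟨h1, h2, h3⟩
    obtain ⟨z, h4, rfl⟩ := (inG_iff j hj t a).1 h2
    exact ⟨z, ⟨(hnr z).1 h1, h4, h3⟩, rfl⟩
  · rintro ⟨z, ⟨h1, h2, h3⟩, rfl⟩
    exact ⟨(hnr z).2 h1, (inG_iff j hj t _).2 ⟨z, h2, rfl⟩, h3⟩

/-! ### the law for one class -/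

theorem lawG (hTR : S_TRFM) (hKEY : S_KEYM) (hDEN : S_DENM) (hBad : BadM)
    (hP : Pool.Agent.E8helper20.CTK3.S_PAIR) (j : Ei ≃+* 𝓞 K)
    (hj : ∀ z : Ei, Algebra.norm ℤ (j z) = nr z) (t : Fin 3 × Fin 3)
    {Nf : Finset Ei → Finset Ei → ℕ} (h : MD (mE t) Nf) (m : ℕ) (hm : nr (mE t) = m) (hm0 : 0 < m) :
    LawK (InG (j w) t) := by
  have e1 := fun P X => cntG_eq j hj t m hm hm0 P X
  have e2 : ∀ X : ℕ, cnt (InG (j w) t) X =
      {z : Ei | nr z ≤ ((X / m : ℕ) : ℤ) ∧ ClsC3 z}.ncard := by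
    intro X
    have h1 := e1 (fun _ => True) X
    simp only [and_true] at h1
    exact h1
  have hdiv := Nat.tendsto_div_const_atTop hm0.ne'
  refine ⟨fun a ha => ?_, ?_, fun r => ?_⟩
  · obtain ⟨z, hz, rfl⟩ := (inG_iff j hj t a).1 ha
    obtain ⟨r, h1, h2⟩ := one_el hTR hP h K j hz
    have hnz : z ≠ 0 := Pool.Agent.Y699.E.prm_ne_zero hz.1
    refine ⟨?_, fun s hs => ?_, r, h1, h2⟩
    · rw [Ne, RingOfIntegers.coe_eq_zero_iff, map_eq_zero_iff j j.injective]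
      exact mul_ne_zero (mE_ne t) hnz
    · have hint : _root_.IsIntegral ℤ s := by
        apply _root_.IsIntegral.of_pow (n := 3) (by norm_num)
        rw [hs]
        exact RingOfIntegers.isIntegral_coe _
      obtain ⟨s', rfl⟩ : ∃ s' : 𝓞 K, (s' : K) = s := ⟨⟨s, hint⟩, rfl⟩
      obtain ⟨y, rfl⟩ := j.surjective s'
      have h3 : (j y) ^ 3 = j (mE t * z) := by
        apply RingOfIntegers.coe_injective
        rw [map_pow]
        exact hs
      rw [← map_pow] at h3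
      exact mE_not_cube t hz (j.injective h3)
  · obtain ⟨⟨c, hc, X₀, hlow⟩, -⟩ := Pool.Agent.E8helper20.CTK3.den3
    refine ⟨c / (2 * m), by positivity, m * (X₀ + 1), fun X hX => ?_⟩
    rw [e2]
    have h1 : X₀ ≤ X / m := by
      rw [Nat.le_div_iff_mul_le hm0]
      nlinarith
    refine le_trans ?_ (hlow (X / m) h1)
    have h2 : m * (X / m) + X % m = X := Nat.div_add_mod X m
    have h3 : X % m < m := Nat.mod_lt X hm0
    have h4 : 1 ≤ X / m := by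
      rw [Nat.le_div_iff_mul_le hm0]
      nlinarith
    have h5 : X ≤ 2 * m * (X / m) := by nlinarith
    have h6 : (X : ℝ) ≤ 2 * m * ((X / m : ℕ) : ℝ) := by exact_mod_cast h5
    have hm1 : (0 : ℝ) < m := by exact_mod_cast hm0
    rw [div_mul_eq_mul_div, div_le_iff₀ (by positivity)]
    nlinarith
  · have h1 := (law_el hTR hKEY hDEN hBad h K j r).comp hdiv
    refine h1.congr fun X => ?_
    unfold prp
    rw [e1, e2]
    rfl

end

/-! ### completeness -/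

theorem complG (z : Ei) (hcf : ∀ x : Ei, x ^ 3 ∣ z → IsUnit x) (hnd : ∀ n : ℕ, ¬ z ∣ 3 ^ n) :
    ∃ t : Fin 3 × Fin 3, (∃ y, ClsC3 y ∧ z = mE t * y) ∨ ∃ y, ClsC3 y ∧ -z = mE t * y := by
  have hsq := Pool.Agent.Y715.T.Gi.lam_sq
  have hz0 : z ≠ 0 := by
    rintro rfl
    exact not_isUnit_zero (hcf 0 (by rw [zero_pow three_ne_zero]))
  -- the common part
  have key : ∀ (t : Fin 3 × Fin 3) (y : Ei), (3 : Ei) ∣ y - 1 → (z = mE t * y ∨ -z = mE t * y) →
      (∃ y, ClsC3 y ∧ z = mE t * y) ∨ ∃ y, ClsC3 y ∧ -z = mE t * y := by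
    intro t y hy hzy
    have hyz : y ∣ z := by
      rcases hzy with h | h
      · exact ⟨mE t, by rw [h, mul_comm]⟩
      · exact ⟨-mE t, by linear_combination (-1 : Ei) * h⟩
    have hy1 : y ≠ 1 := by
      rintro rfl
      apply hnd 1
      have h3 : mE t ∣ 3 ^ 1 := by
        have hu := unit_w (t.2 : ℕ)
        unfold mE
        rw [hu.mul_right_dvd, pow_one]
        split_ifs
        · exact one_dvd _
        · exact lam_dvd_three
        · exact dvd_rfl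
      rw [mul_one] at hzy
      rcases hzy with h | h
      · rw [h]; exact h3
      · rw [← neg_dvd, h]; exact h3
    have hc : ClsC3 y := ⟨hy, ⟨fun h => hz0 (by rw [h, zero_dvd_iff] at hyz; exact hyz),
        fun x hx => hcf x (hx.trans hyz)⟩, hy1⟩
    rcases hzy with h | h
    · exact Or.inl ⟨y, hc, h⟩
    · exact Or.inr ⟨y, hc, h⟩
  by_cases ha : lam ∣ z
  · obtain ⟨z1, rfl⟩ := ha
    by_cases hb : lam ∣ z1
    · obtain ⟨z2, rfl⟩ := hb
      by_cases hc : lam ∣ z2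
      · exfalso
        obtain ⟨z3, rfl⟩ := hc
        exact prime_lam.not_isUnit (hcf lam ⟨z3, by ring⟩)
      · obtain ⟨b, y, hy, hd⟩ := decomp hc
        refine ⟨(2, b), key (2, b) y hy ?_⟩
        have e : mE ((2, b) : Fin 3 × Fin 3) = 3 * w ^ (b : ℕ) := rfl
        rw [e]
        rcases hd with hd | hd
        · right
          linear_combination (-z2) * hsq + 3 * hd
        · left
          linear_combination z2 * hsq + 3 * hd
    · obtain ⟨b, y, hy, hd⟩ := decomp hb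
      refine ⟨(1, b), key (1, b) y hy ?_⟩
      have e : mE ((1, b) : Fin 3 × Fin 3) = lam * w ^ (b : ℕ) := rfl
      rw [e]
      rcases hd with hd | hd
      · left
        linear_combination lam * hd
      · right
        linear_combination lam * hd
  · obtain ⟨b, y, hy, hd⟩ := decomp ha
    have e : mE ((0, b) : Fin 3 × Fin 3) = w ^ (b : ℕ) := by
      have : mE ((0, b) : Fin 3 × Fin 3) = 1 * w ^ (b : ℕ) := rfl
      rw [this, one_mul]
    exact ⟨(0, b), key (0, b) y hy (by rw [e]; exact hd)⟩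

/-- completeness over `K` -/
theorem complGK {K : Type} [Field K] [NumberField K] (j : Ei ≃+* 𝓞 K)
    (hj : ∀ z : Ei, Algebra.norm ℤ (j z) = nr z) (a : 𝓞 K) (hcf : ∀ x : 𝓞 K, x ^ 3 ∣ a → IsUnit x)
    (hnd : ∀ n : ℕ, ¬ a ∣ 3 ^ n) :
    (∃ t ∈ (univ : Finset (Fin 3 × Fin 3)), InG (j w) t a) ∨
      ∃ t ∈ (univ : Finset (Fin 3 × Fin 3)), InG (j w) t (-a) := by
  obtain ⟨z, rfl⟩ := j.surjective a
  obtain ⟨t, h⟩ := complG z (fun x hx => (MulEquiv.isUnit_map j).1 (hcf (j x) (by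
      rw [← map_pow]; exact map_dvd j hx)))
    (fun n hn => hnd n (by
      have := map_dvd j hn
      rwa [map_pow, map_ofNat] at this))
  rcases h with ⟨y, hy, rfl⟩ | ⟨y, hy, h3⟩
  · exact Or.inl ⟨t, mem_univ t, (inG_iff j hj t _).2 ⟨y, hy, rfl⟩⟩
  · refine Or.inr ⟨t, mem_univ t, (inG_iff j hj t _).2 ⟨y, hy, ?_⟩⟩
    rw [← map_neg, h3]

end Pool.Agent.E8helper20.CTM
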