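import Pool.Agent.E8helper20.CTK3.Asm
import Pool.Agent.E8helper20.CTM.StmA
import Pool.Agent.Y703.XL.Fin

/-!
# Project CTM: the laws for the single multipliers
-/

set_option autoImplicit false
set_option linter.unusedVariables false
set_option linter.unusedSectionVars false

open scoped Classical

namespace Pool.Agent.E8helper20.CTM

open NumberField Finset Filter
open Pool.Agent.Y692.QS (Ei w nr)
open Pool.Agent.Y715.T.Rec (cs)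
open Pool.Agent.Y715.T.RecG (Pq)
open Pool.Agent.Y715.T.Gi Pool.Agent.Y715.T.Nr Pool.Agent.Y715.T.Df Pool.Agent.Y715.T.Ell
open Pool.Agent.Y703.CT
open Pool.Agent.Y703.XK (S_BIL S_LOW)
open Pool.Agent.Y703.XL (cr)
open Pool.Agent.Y696.CTK (ED)
open Pool.Agent.XL6 (SelK SelH)
open Pool.Agent.E8helper20.CTK3 (el3 ClsC3 DenC)

/-- the data that are needed for one multiplier -/
structure MD (c : Ei) (Nf : Finset Ei → Finset Ei → ℕ) : Prop where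
  pow : ∃ n : ℕ, c ∣ 3 ^ n
  box : ∀ r : ℕ, ∃ K : ℝ, 0 ≤ K ∧ BoxM (fun M S => Nf M S = 3 ^ r) (cr r) K
  three : ∀ M S : Finset Ei, (∀ q ∈ S, Pq q) → M ⊆ S → S.Nonempty → ∃ r : ℕ, Nf M S = 3 ^ r
  dat : ∀ M S : Finset Ei, (∀ q ∈ S, Pq q) → M ⊆ S → S.Nonempty →
    ∃ (n : ℕ) (π : Fin (n + 1) → Ei) (e : Fin (n + 1) → ZMod 3), Dt π e ∧ el3 M S = pD π e ∧
      ∀ (i₀ : QB) (hi : i₀ ^ 2 + i₀ + 1 = 0) (u : QB) (a : GK i₀ → ZMod 3),
        Tw hi (c * pD π e) u a → (SelH hi a).ncard = 3 * Nf M S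

theorem sel_el (hTR : S_TRFM) {c : Ei} {Nf : Finset Ei → Finset Ei → ℕ} (h : MD c Nf)
    (K : Type) [Field K] [NumberField K] (j : Ei ≃+* 𝓞 K) {M S : Finset Ei}
    (hS : ∀ q ∈ S, Pq q) (hM : M ⊆ S) (hn : S.Nonempty) :
    (SelK (j (c * el3 M S) : K)).ncard = 3 * Nf M S ∧
      ∀ r : ℕ, Nf M S ≤ 3 ^ r →
        Module.finrank ℤ (ED (j (c * el3 M S) : K)).toAffine.Point ≤ 2 * r := by
  obtain ⟨m, hm⟩ := h.pow
  obtain ⟨r, hr⟩ := h.three M S hS hM hn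
  obtain ⟨n, π, e, hdt, hel, hT⟩ := h.dat M S hS hM hn
  rw [hel]
  exact hTR c m hm K j _ π e hdt (Nf M S) (by rw [hr]; exact pow_ne_zero _ (by norm_num)) hT

/-- the facts for one `D` -/
theorem one_el (hTR : S_TRFM) (hP : Pool.Agent.E8helper20.CTK3.S_PAIR) {c : Ei}
    {Nf : Finset Ei → Finset Ei → ℕ} (h : MD c Nf)
    (K : Type) [Field K] [NumberField K] (j : Ei ≃+* 𝓞 K) {D : Ei} (hD : ClsC3 D) :
    ∃ r : ℕ, (SelK (j (c * D) : K)).ncard = 3 ^ (r + 1) ∧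
      Module.finrank ℤ (ED (j (c * D) : K)).toAffine.Point ≤ 2 * r := by
  obtain ⟨M, S, hS, hM, hn, rfl⟩ := hP D hD
  obtain ⟨h1, h2⟩ := sel_el hTR h K j hS hM hn
  obtain ⟨r, hr⟩ := h.three M S hS hM hn
  exact ⟨r, by rw [h1, hr, pow_succ'], h2 r hr.le⟩

/-- the law for one multiplier -/
theorem law_el (hTR : S_TRFM) (hKEY : S_KEYM) (hDEN : S_DENM) (hBad : BadM) {c : Ei}
    {Nf : Finset Ei → Finset Ei → ℕ} (h : MD c Nf)
    (K : Type) [Field K] [NumberField K] (j : Ei ≃+* 𝓞 K) (r : ℕ) :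
    Tendsto (fun X : ℕ =>
      ({D : Ei | nr D ≤ X ∧ ClsC3 D ∧ (SelK (j (c * D) : K)).ncard = 3 ^ (r + 1)}.ncard : ℝ) /
      ({D : Ei | nr D ≤ X ∧ ClsC3 D}.ncard : ℝ)) atTop (nhds (cr r)) := by
  obtain ⟨C, hC, hbox⟩ := h.box r
  have hc9 := Pool.Agent.Y528.XK.t_C9
  refine hDEN Pool.Agent.Y550.XK.NS.t_LOW hBad _ (cr r) C hC
    (Pool.Agent.Y703.XL.cr_pos hc9 r).le (Pool.Agent.Y703.XL.cr_le hc9 r)
    (hKEY Pool.Agent.Y363.XK.t_BIL _ _ _ hC hbox)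
    (fun D => (SelK (j (c * D) : K)).ncard = 3 ^ (r + 1)) fun M S hS hM hn => ?_
  obtain ⟨h1, -⟩ := sel_el hTR h K j hS hM hn
  rw [h1, pow_succ']
  exact ⟨fun h2 => Nat.eq_of_mul_eq_mul_left (by norm_num) h2, fun h2 => by rw [h2]⟩

/-- the multipliers of type 1 -/
theorem md1 (hREC : S_REC) (hSUP : S_SUPM) (hRAM : S_RAMM) (hLOC : S_LOCM1) (hCUB : S_CUBM1)
    (hFF : S_FF) (hC : S_CUB) (hPT : S_PT) (hSEL : S_SELM1) (hBOX : S_BOX1) (hDAT : S_DATM)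
    (k b : ℕ) (hk : k ≤ 1) (hb : b ≤ 2) (h0 : k ≠ 0 ∨ b ≠ 0) :
    MD (3 ^ k * w ^ b) (n1 b k) := by
  have hw : (w : Ei) ^ 3 = 1 := by decide
  refine ⟨⟨1, ?_⟩, fun r => ⟨3 ^ (r + 1), by positivity, ?_⟩, fun M S hS hM hn => ?_,
    fun M S hS hM hn => ?_⟩
  · have h1 : (3 : Ei) ^ k ∣ 3 ^ 1 := pow_dvd_pow 3 hk
    have h2 : IsUnit ((w : Ei) ^ b) := (IsUnit.of_mul_eq_one (w ^ 2) (by rw [← pow_succ', hw])).pow b
    exact (h2.mul_right_dvd).2 h1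
  · refine hBOX Pool.Agent.Y710.XK.t_EQ Pool.Agent.Y703.XL.t_LA b k ?_ r
    rcases h0 with h | h
    · right
      have : k = 1 := by omega
      rw [this, Nat.cast_one]
      exact one_ne_zero
    · left
      rw [Ne, ZMod.natCast_eq_zero_iff]
      omega
  · obtain ⟨n, π, e, -, -, h3, -⟩ := hDAT.2 M S hS hM hn
    rw [h3]
    exact (hDAT.1 _ π e).1 b k
  · obtain ⟨n, π, e, h1, h2, h3, -⟩ := hDAT.2 M S hS hM hn
    refine ⟨n, π, e, h1, h2, fun i₀ hi u a hT => ?_⟩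
    rw [h3]
    exact hSEL hREC hSUP hRAM hLOC hCUB hFF hC hPT k b hk hb h0 _ π e h1 i₀ hi u a hT

/-- the multipliers of type 2 -/
theorem md2 (hREC : S_REC) (hSUP : S_SUPM) (hRAM : S_RAMM) (hLOC : S_LOCM2) (hCUB : S_CUBM2)
    (hFF : S_FF) (hC : S_CUB) (hPT : S_PT) (hSEL : S_SELM2) (hBOX : S_BOX2) (hDAT : S_DATM)
    (b : ℕ) (hb : b ≤ 2) : MD (lam * w ^ b) (n2 b) := by
  have hw : (w : Ei) ^ 3 = 1 := by decide
  refine ⟨⟨1, ?_⟩, fun r => ⟨3 ^ (r + 2), by positivity,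
    hBOX Pool.Agent.Y710.XK.t_EQ Pool.Agent.Y703.XL.t_LA b r⟩, fun M S hS hM hn => ?_,
    fun M S hS hM hn => ?_⟩
  · have h1 : (lam : Ei) ∣ 3 ^ 1 := ⟨-lam, by
      have := Pool.Agent.Y715.T.Gi.lam_sq
      linear_combination this⟩
    have h2 : IsUnit ((w : Ei) ^ b) := (IsUnit.of_mul_eq_one (w ^ 2) (by rw [← pow_succ', hw])).pow b
    exact (h2.mul_right_dvd).2 h1
  · obtain ⟨n, π, e, -, -, -, h3⟩ := hDAT.2 M S hS hM hn
    rw [h3]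
    exact (hDAT.1 _ π e).2 b
  · obtain ⟨n, π, e, h1, h2, -, h3⟩ := hDAT.2 M S hS hM hn
    refine ⟨n, π, e, h1, h2, fun i₀ hi u a hT => ?_⟩
    rw [h3]
    exact hSEL hREC hSUP hRAM hLOC hCUB hFF hC hPT b hb _ π e h1 i₀ hi u a hT

end Pool.Agent.E8helper20.CTM
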